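import Pool.Agent.L0h58.RL.Tab

/-!
# Inputs together with the relevant part of the oracle, coded as one input
-/

set_option autoImplicit false

namespace Pool.Agent.L0h58.RL

theorem inputAt_le (x : List Bool) (i : ℕ) : inputAt x i ≤ 2 := by
  unfold inputAt
  split
  · exact le_rfl
  · rename_i b _
    exact (Bool.toNat_le b).trans (by omega)

theorem inputAt_of_ge {x : List Bool} {i : ℕ} (h : x.length ≤ i) : inputAt x i = 2 := by
  unfold inputAt
  rw [List.getElem?_eq_none h]

theorem inputAt_of_lt {x : List Bool} {i : ℕ} (h : i < x.length) : inputAt x i = (x[i]).toNat := by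
  unfold inputAt
  rw [List.getElem?_eq_getElem h]

theorem inputAt_le_one {x : List Bool} {i : ℕ} (h : i < x.length) : inputAt x i ≤ 1 := by
  rw [inputAt_of_lt h]
  exact Bool.toNat_le _

theorem inputAt_two (a b : Bool) (l : List Bool) (i : ℕ) :
    inputAt (a :: b :: l) (i + 2) = inputAt l i := rfl

/-- the input `x` and the values of `A` up to `B` -/
def enc (B : ℕ) (x : List Bool) (A : ℕ → Bool) : List Bool :=
  x.flatMap (fun b => [b, true]) ++ (false :: false :: (List.range (B + 1)).map A)

theorem enc_cons (B : ℕ) (b : Bool) (x : List Bool) (A : ℕ → Bool) :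
    enc B (b :: x) A = b :: true :: enc B x A := rfl

theorem enc_nil (B : ℕ) (A : ℕ → Bool) :
    enc B [] A = false :: false :: (List.range (B + 1)).map A := rfl

theorem length_enc (B : ℕ) (x : List Bool) (A : ℕ → Bool) :
    (enc B x A).length = 2 * x.length + 2 + (B + 1) := by
  induction x with
  | nil => rw [enc_nil]; simp; omega
  | cons b x ih => rw [enc_cons]; simp only [List.length_cons, ih]; omega

theorem inputAt_map (B : ℕ) (A : ℕ → Bool) (i : ℕ) : inputAt ((List.range (B + 1)).map A) i =
    if i < B + 1 then (A i).toNat else 2 := by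
  split_ifs with h
  · rw [inputAt_of_lt (by simpa using h)]
    simp
  · rw [inputAt_of_ge (by simpa using h)]

theorem inputAt_enc (B : ℕ) (A : ℕ → Bool) (x : List Bool) : ∀ i, inputAt (enc B x A) i =
    if i < 2 * x.length then (if i % 2 = 1 then 1 else inputAt x (i / 2))
    else if i < 2 * x.length + 2 then 0
    else if i < 2 * x.length + 2 + (B + 1) then (A (i - (2 * x.length + 2))).toNat else 2 := by
  induction x with
  | nil =>
    intro i
    rw [enc_nil]
    match i with
    | 0 => rfl
    | 1 => rfl
    | i + 2 =>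
      rw [inputAt_two, inputAt_map]
      simp only [List.length_nil, Nat.mul_zero, Nat.not_lt_zero, if_false, Nat.zero_add]
      rw [if_neg (by omega : ¬ i + 2 < 2), show i + 2 - 2 = i by omega]
      by_cases h : i < B + 1
      · rw [if_pos h, if_pos (by omega)]
      · rw [if_neg h, if_neg (by omega)]
  | cons b x ih =>
    intro i
    rw [enc_cons]
    match i with
    | 0 =>
      rw [if_pos (by simp), if_neg (by omega)]
      rfl
    | 1 =>
      rw [if_pos (by rw [List.length_cons]; omega), if_pos rfl]
      rfl
    | i + 2 =>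
      rw [inputAt_two, ih i]
      simp only [List.length_cons]
      by_cases h1 : i < 2 * x.length
      · rw [if_pos h1, if_pos (show i + 2 < 2 * (x.length + 1) by omega)]
        rw [show (i + 2) % 2 = i % 2 by omega, show (i + 2) / 2 = i / 2 + 1 by omega]
        rfl
      · rw [if_neg h1, if_neg (show ¬ i + 2 < 2 * (x.length + 1) by omega)]
        by_cases h2 : i < 2 * x.length + 2
        · rw [if_pos h2, if_pos (show i + 2 < 2 * (x.length + 1) + 2 by omega)]
        · rw [if_neg h2, if_neg (show ¬ i + 2 < 2 * (x.length + 1) + 2 by omega)]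
          rw [show i + 2 - (2 * (x.length + 1) + 2) = i - (2 * x.length + 2) by omega]
          by_cases h3 : i < 2 * x.length + 2 + (B + 1)
          · rw [if_pos h3, if_pos (show i + 2 < 2 * (x.length + 1) + 2 + (B + 1) by omega)]
          · rw [if_neg h3, if_neg (show ¬ i + 2 < 2 * (x.length + 1) + 2 + (B + 1) by omega)]

/-! ### Decoding -/

theorem exists_sc (z : List Bool) : ∃ i, inputAt z (2 * i + 1) ≠ 1 :=
  ⟨z.length, by rw [inputAt_of_ge (by omega)]; omega⟩

/-- the length of the coded input -/
def sc (z : List Bool) : ℕ := Nat.find (exists_sc z)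

theorem sc_spec (z : List Bool) : inputAt z (2 * sc z + 1) ≠ 1 := Nat.find_spec (exists_sc z)

theorem sc_min {z : List Bool} {i : ℕ} (h : i < sc z) : inputAt z (2 * i + 1) = 1 := by
  have := Nat.find_min (exists_sc z) h
  exact not_not.1 this

theorem sc_le (z : List Bool) : sc z ≤ z.length := by
  refine Nat.find_le ?_
  rw [inputAt_of_ge (by omega)]
  omega

/-- the coded input -/
def dx (z : List Bool) : List Bool := (List.range (sc z)).map fun i => decide (inputAt z (2 * i) = 1)

theorem length_dx (z : List Bool) : (dx z).length = sc z := by simp [dx]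

theorem inputAt_dx (z : List Bool) (i : ℕ) : inputAt (dx z) i =
    if i < sc z then inputAt z (2 * i) % 2 else 2 := by
  split_ifs with h
  · rw [inputAt_of_lt (by rw [length_dx]; exact h)]
    have h1 := inputAt_le z (2 * i)
    have h2 : (dx z)[i]'(by rw [length_dx]; exact h) = decide (inputAt z (2 * i) = 1) := by
      simp [dx]
    rw [h2]
    by_cases h3 : inputAt z (2 * i) = 1
    · rw [h3]; rfl
    · rw [decide_eq_false h3]
      change 0 = _
      omega
  · rw [inputAt_of_ge (by rw [length_dx]; omega)]

/-- the coded oracle; the values at the numbers less than `s₀` are those of `A₀` -/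
def dA (s₀ : ℕ) (A₀ : ℕ → Bool) (z : List Bool) (a : ℕ) : Bool :=
  if a < s₀ then A₀ a else decide (inputAt z (2 * sc z + 2 + a) = 1)

theorem sc_enc (B : ℕ) (x : List Bool) (A : ℕ → Bool) : sc (enc B x A) = x.length := by
  unfold sc
  rw [Nat.find_eq_iff]
  constructor
  · rw [inputAt_enc, if_neg (by omega), if_pos (by omega)]
    omega
  · intro i hi
    rw [inputAt_enc, if_pos (by omega), if_pos (by omega)]
    simp

theorem dx_enc (B : ℕ) (x : List Bool) (A : ℕ → Bool) : dx (enc B x A) = x := by
  have hl : (dx (enc B x A)).length = x.length := by rw [length_dx, sc_enc]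
  refine List.ext_getElem hl fun i h1 h2 => ?_
  have h3 := inputAt_dx (enc B x A) i
  rw [sc_enc, if_pos h2, inputAt_enc, if_pos (by omega), if_neg (by omega),
    show 2 * i / 2 = i by omega, inputAt_of_lt h1, inputAt_of_lt h2] at h3
  generalize (dx (enc B x A))[i] = u at h3 ⊢
  generalize x[i] = w at h3 ⊢
  cases u <;> cases w <;> simp at h3 ⊢

theorem dA_enc (B s₀ : ℕ) (x : List Bool) (A A₀ : ℕ → Bool) (h : ∀ a < s₀, A a = A₀ a) (a : ℕ)
    (ha : a ≤ B) : dA s₀ A₀ (enc B x A) a = A a := by
  unfold dA
  split_ifs with h1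
  · exact (h a h1).symm
  · rw [sc_enc, inputAt_enc, if_neg (by omega), if_neg (by omega), if_pos (by omega),
      show 2 * x.length + 2 + a - (2 * x.length + 2) = a by omega]
    cases A a <;> simp

/-! ### The program for coded instances -/

/-- The program which simulates `P` with the coded input and oracle. -/
def codedProg (P : Prog) (s₀ : ℕ) (A₀ : ℕ → Bool) : Prog :=
  simProg P 0 (fun _ => false) (P.c + 1) (.const 1)
    (.mod (.inp (.add (.mul (.const 2) (.reg 2)) (.const 1))) (.const 2)) (.reg 2)
    (fun e => .ite (.add e (.const 1)) (.reg 2) (.mod (.inp (.mul (.const 2) e)) (.const 2))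
      (.const 2))
    (fun e => .ite (.add e (.const 1)) (.const s₀) (tabO A₀ s₀ e)
      (.mod (.inp (.add (.add (.mul (.const 2) (.reg 2)) (.const 2)) e)) (.const 2)))

theorem conds_coded (P : Prog) (s₀ : ℕ) (A₀ : ℕ → Bool) (z : List Bool) (A' : ℕ → Bool) :
    Conds P A' (P.c + 1) (.const 1)
      (.mod (.inp (.add (.mul (.const 2) (.reg 2)) (.const 1))) (.const 2)) (.reg 2)
      (fun e => .ite (.add e (.const 1)) (.reg 2) (.mod (.inp (.mul (.const 2) e)) (.const 2))
        (.const 2))
      (fun e => .ite (.add e (.const 1)) (.const s₀) (tabO A₀ s₀ e)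
        (.mod (.inp (.add (.add (.mul (.const 2) (.reg 2)) (.const 2)) e)) (.const 2)))
      z (sc z) (dx z) (dA s₀ A₀ z) where
  scan := by
    intro v b hv
    change 1 ≤ inputAt z (2 * v 2 + 1) % 2
    rw [sc_min hv]
  stop := by
    intro v b hv
    change ¬ 1 ≤ inputAt z (2 * v 2 + 1) % 2
    rw [hv]
    have h1 := sc_spec z
    have h2 := inputAt_le z (2 * sc z + 1)
    omega
  len := by
    intro v b hv
    rw [length_dx]
    exact hv
  inp := by
    intro v b hv e
    rw [inputAt_dx]
    by_cases h : e.eval ((z.length + 2) ^ (P.c + 1 + 1)) z A' v b < sc z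
    · rw [if_pos h, eval_ite_pos]
      · rfl
      · change _ + 1 ≤ v 2
        omega
    · rw [if_neg h, eval_ite_neg]
      · rfl
      · change ¬ _ + 1 ≤ v 2
        omega
  orc := by
    intro v b hv e he
    unfold dA
    by_cases h : e.eval ((z.length + 2) ^ (P.c + 1 + 1)) z A' v b < s₀
    · rw [if_pos h, eval_ite_pos, eval_tabO _ _ _ _ _ _ _ h]
      change _ + 1 ≤ s₀
      omega
    · rw [if_neg h, eval_ite_neg]
      · change inputAt z (2 * v 2 + 2 + _) % 2 = _
        rw [hv]
        have h1 := inputAt_le z (2 * sc z + 2 + e.eval ((z.length + 2) ^ (P.c + 1 + 1)) z A' v b)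
        by_cases h3 : inputAt z (2 * sc z + 2 + e.eval ((z.length + 2) ^ (P.c + 1 + 1)) z A' v b) = 1
        · rw [h3]; rfl
        · rw [decide_eq_false h3]
          change _ = 0
          omega
      · change ¬ _ + 1 ≤ s₀
        omega
  time := by
    rw [length_dx]
    have h1 := sc_le z
    have h2 : P.bound (sc z) ≤ (z.length + 2) ^ (P.c + 1) := Nat.pow_le_pow_left (by omega) _
    have h3 : z.length + 2 ≤ (z.length + 2) ^ (P.c + 1) := by
      calc z.length + 2 = (z.length + 2) ^ 1 := (pow_one _).symm
        _ ≤ _ := Nat.pow_le_pow_right (by omega) (by omega)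
    rw [pow_succ]
    nlinarith

theorem codedProg_prob (P : Prog) (s₀ : ℕ) (A₀ A' : ℕ → Bool) (z : List Bool) :
    (codedProg P s₀ A₀).prob A' z = P.prob (dA s₀ A₀ z) (dx z) :=
  simProg_prob _ (conds_coded P s₀ A₀ z A')

theorem codedProg_prob_enc (P : Prog) (s₀ : ℕ) (A₀ A' A : ℕ → Bool) (x : List Bool)
    (h : ∀ a < s₀, A a = A₀ a) :
    (codedProg P s₀ A₀).prob A' (enc (P.bound x.length) x A) = P.prob A x := by
  rw [codedProg_prob, dx_enc]
  exact prob_congr P x fun a ha => dA_enc _ _ _ _ _ h a ha

/-! ### Using a program for coded instances -/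

/-- the length of the coded instance -/
def lenE (P : Prog) : Expr :=
  .add (.add (.mul (.const 2) .len) (.const 2)) (.add (bdE P.c .len) (.const 1))

theorem eval_lenE (P : Prog) {W : ℕ} (x : List Bool) (A : ℕ → Bool) (v : ℕ → ℕ) (b : Bool) :
    (lenE P).eval W x A v b = 2 * x.length + 2 + (P.bound x.length + 1) := by
  have := eval_bdE x A v b .len P (W := W) (n := x.length) rfl
  unfold lenE
  simp only [Expr.eval] at this ⊢
  rw [this]

/-- The symbols of the coded instance. -/
def symE (P : Prog) (e : Expr) : Expr :=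
  .ite (.add e (.const 1)) (.mul (.const 2) .len)
    (.ite (.const 1) (.mod e (.const 2)) (.const 1) (.inp (.div e (.const 2))))
    (.ite (.add e (.const 1)) (.add (.mul (.const 2) .len) (.const 2)) (.const 0)
      (.ite (.add e (.const 1)) (lenE P)
        (.orc (.sub e (.add (.mul (.const 2) .len) (.const 2)))) (.const 2)))

theorem eval_symE (P : Prog) {W : ℕ} (x : List Bool) (A : ℕ → Bool) (v : ℕ → ℕ) (b : Bool)
    (e : Expr) (hW : P.bound x.length ≤ W) : (symE P e).eval W x A v b =
      inputAt (enc (P.bound x.length) x A) (e.eval W x A v b) := by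
  rw [inputAt_enc]
  unfold symE
  generalize hi : e.eval W x A v b = i
  by_cases h1 : i < 2 * x.length
  · rw [if_pos h1, eval_ite_pos]
    · by_cases h2 : i % 2 = 1
      · rw [if_pos h2, eval_ite_pos]
        · rfl
        · change 1 ≤ e.eval W x A v b % 2
          omega
      · rw [if_neg h2, eval_ite_neg]
        · change inputAt x (e.eval W x A v b / 2) = _
          rw [hi]
        · change ¬ 1 ≤ e.eval W x A v b % 2
          omega
    · change e.eval W x A v b + 1 ≤ 2 * x.length
      omega
  · rw [if_neg h1, eval_ite_neg]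
    · by_cases h2 : i < 2 * x.length + 2
      · rw [if_pos h2, eval_ite_pos]
        · rfl
        · change e.eval W x A v b + 1 ≤ 2 * x.length + 2
          omega
      · rw [if_neg h2, eval_ite_neg]
        · by_cases h3 : i < 2 * x.length + 2 + (P.bound x.length + 1)
          · rw [if_pos h3, eval_ite_pos]
            · change (A (min (e.eval W x A v b - (2 * x.length + 2)) W)).toNat = _
              rw [hi, min_eq_left (by omega)]
            · rw [eval_lenE]
              change e.eval W x A v b + 1 ≤ _
              omega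
          · rw [if_neg h3, eval_ite_neg]
            · rfl
            · rw [eval_lenE]
              change ¬ e.eval W x A v b + 1 ≤ _
              omega
        · change ¬ e.eval W x A v b + 1 ≤ 2 * x.length + 2
          omega
    · change ¬ e.eval W x A v b + 1 ≤ 2 * x.length
      omega

/-- the exponent -/
def cE (P D : Prog) : ℕ := (P.c + 3) * (D.c + 1)

/-- The program which runs `D` on the coded instance. -/
def onCoded (P D : Prog) : Prog :=
  simProg D 0 (fun _ => false) (cE P D) (.const 1) (.const 0) (lenE P) (symE P) (fun _ => .const 0)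

theorem time_onCoded (P D : Prog) (n : ℕ) :
    0 + D.bound (2 * n + 2 + (P.bound n + 1)) + 1 ≤ (n + 2) ^ (cE P D + 1) := by
  have h1 := P.bound_ge n
  have h2 : 2 * n + 2 + (P.bound n + 1) + 2 ≤ (n + 2) ^ (P.c + 3) := by
    have h3 : (n + 2) ^ (P.c + 3) = P.bound n * ((n + 2) * (n + 2)) := by
      unfold Prog.bound
      ring
    rw [h3]
    have h4 : 4 ≤ (n + 2) * (n + 2) := by nlinarith
    have h5 : P.bound n * 4 ≤ P.bound n * ((n + 2) * (n + 2)) := Nat.mul_le_mul_left _ h4
    omega
  have h3 : D.bound (2 * n + 2 + (P.bound n + 1)) ≤ (n + 2) ^ cE P D := by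
    unfold cE
    rw [pow_mul]
    exact Nat.pow_le_pow_left h2 _
  have h4 : 1 ≤ (n + 2) ^ cE P D := Nat.one_le_pow _ _ (by omega)
  rw [pow_succ]
  nlinarith

theorem bound_le_onCoded (P D : Prog) (n : ℕ) : P.bound n ≤ (n + 2) ^ (cE P D + 1) := by
  refine Nat.pow_le_pow_right (by omega) ?_
  unfold cE
  nlinarith

theorem conds_onCoded (P D : Prog) (x : List Bool) (A : ℕ → Bool) :
    Conds D A (cE P D) (.const 1) (.const 0) (lenE P) (symE P) (fun _ => .const 0)
      x 0 (enc (P.bound x.length) x A) empty where
  scan := no_scan'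
  stop := no_scan
  len := by
    intro v b _
    rw [eval_lenE, length_enc]
  inp := by
    intro v b _ e
    exact eval_symE P x A v b e (bound_le_onCoded P D x.length)
  orc := by
    intro v b _ e _
    rfl
  time := by
    rw [length_enc]
    exact time_onCoded P D x.length

theorem onCoded_acc (P D : Prog) (x : List Bool) (A : ℕ → Bool) :
    (onCoded P D).Acc A x (fun _ => false) ↔
      D.Acc empty (enc (P.bound x.length) x A) fun _ => false :=
  simProg_acc 0 _ (Nat.zero_le _) (conds_onCoded P D x A) _

end Pool.Agent.L0h58.RL
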