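import Pool.Agent.L0h58.RL.Enc
import Mathlib.Topology.MetricSpace.PiNat
import Mathlib.Topology.Baire.Lemmas
import Mathlib.Topology.Baire.LocallyCompactRegular

/-!
# Generic oracles, and all oracles
-/

set_option autoImplicit false

namespace Pool.Agent.L0h58.RL

open Set

/-! ### Comparison of oracles -/

theorem half_le_of_forall (P : Prog) (A : ℕ → Bool) (x : List Bool) (h : ∀ r, P.Acc A x r) :
    1 / 2 ≤ P.prob A x := by
  classical
  rw [half_le_iff]
  have h1 : accs P A x = 2 ^ P.bound x.length := by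
    unfold accs cnt
    have h2 : Fintype.card {r : Fin (P.bound x.length) → Bool // P.Acc A x (ext r)} =
        Fintype.card (Fin (P.bound x.length) → Bool) :=
      Fintype.card_congr (Equiv.subtypeUnivEquiv fun r => h _)
    rw [Fintype.card_fun, Fintype.card_bool, Fintype.card_fin] at h2
    convert h2
  rw [h1]
  omega

theorem inRL_of_inL {A : ℕ → Bool} {S : Set (List Bool)} (h : InL A S) : InRL A S := by
  obtain ⟨P, hP⟩ := h
  have key : ∀ x r', ((Sim.mk (.const 1) (.const 0) .len (.const 0) .inp .orc (.reg 3)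
      (P.c + 1)).prog P).Acc A x r' ↔ P.Acc A x fun _ => false := by
    intro x r'
    have hc := conds_oracle P A A .orc x fun v b e => by
      by_cases h : e.eval ((x.length + 2) ^ (P.c + 1 + 1)) x A v b ≤ P.bound x.length
      · left
        change (A (min _ _)).toNat = _
        rw [min_eq_left (h.trans ?_)]
        exact Nat.pow_le_pow_right (by omega) (by omega)
      · right
        omega
    have hOK : (Sim.mk (.const 1) (.const 0) .len (.const 0) .inp .orc (.reg 3)
        (P.c + 1)).OK P A A x x (fun _ => false) r' 0 :=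
      { scan := hc.scan
        stop := hc.stop
        len := hc.len
        coin := fun v t _ _ _ => rfl
        inp := hc.inp
        orc := hc.orc
        time := hc.time }
    exact hOK.acc_reg rfl
  refine ⟨_, fun x => ⟨fun hx => half_le_of_forall _ A x fun r => (key x r).2 ((hP x).1 hx),
    fun hx => (prob_eq_zero_iff _ A x).2 fun r hr => hx ((hP x).2 ((key x r).1 hr))⟩⟩

theorem same_iff {A : ℕ → Bool} : Same A ↔ ∀ S, InRL A S → InL A S :=
  ⟨fun h S hS => (h S).1 hS, fun h S => ⟨h S, inRL_of_inL⟩⟩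

/-- oracles which can be expressed -/
theorem transfer {A A' : ℕ → Bool} (O : Expr → Expr)
    (hO : ∀ W x v b (e : Expr), (O e).eval W x A' v b = (A (e.eval W x A' v b)).toNat)
    (S : Set (List Bool)) : (InRL A S → InRL A' S) ∧ (InL A S → InL A' S) := by
  constructor
  · rintro ⟨P, hP⟩
    refine ⟨simProg P 0 (fun _ => false) (P.c + 1) (.const 1) (.const 0) .len .inp O, fun x => ?_⟩
    rw [simProg_prob _ (conds_oracle P A A' O x fun v b e => Or.inl (hO _ _ _ _ _))]
    exact hP x
  · rintro ⟨P, hP⟩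
    refine ⟨simProg P 0 (fun _ => false) (P.c + 1) (.const 1) (.const 0) .len .inp O, fun x => ?_⟩
    rw [simProg_acc 0 _ (Nat.zero_le _) (conds_oracle P A A' O x fun v b e => Or.inl (hO _ _ _ _ _))]
    exact hP x

theorem transfer_empty (A' : ℕ → Bool) (S : Set (List Bool)) :
    (InRL empty S → InRL A' S) ∧ (InL empty S → InL A' S) :=
  transfer (fun _ => .const 0) (fun _ _ _ _ _ => rfl) S

theorem transfer_finite {A : ℕ → Bool} (m : ℕ) (hA : ∀ a, m ≤ a → A a = false) (A' : ℕ → Bool)
    (S : Set (List Bool)) : (InRL A S → InRL A' S) ∧ (InL A S → InL A' S) := by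
  refine transfer (fun e => .ite (.add e (.const 1)) (.const m) (tabO A m e) (.const 0))
    (fun W x v b e => ?_) S
  by_cases h : e.eval W x A' v b < m
  · rw [eval_ite_pos, eval_tabO _ _ _ _ _ _ _ h]
    change _ + 1 ≤ m
    omega
  · rw [eval_ite_neg, hA _ (by omega)]
    · rfl
    · change ¬ _ + 1 ≤ m
      omega

theorem same_finite {A : ℕ → Bool} (m : ℕ) (hA : ∀ a, m ≤ a → A a = false) :
    Same A ↔ Same empty := by
  constructor
  · intro h S
    rw [← (show InRL A S ↔ InRL empty S from
      ⟨(transfer_finite m hA empty S).1, (transfer_empty A S).1⟩),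
      ← (show InL A S ↔ InL empty S from
      ⟨(transfer_finite m hA empty S).2, (transfer_empty A S).2⟩)]
    exact h S
  · intro h S
    rw [(show InRL A S ↔ InRL empty S from
      ⟨(transfer_finite m hA empty S).1, (transfer_empty A S).1⟩),
      (show InL A S ↔ InL empty S from
      ⟨(transfer_finite m hA empty S).2, (transfer_empty A S).2⟩)]
    exact h S

/-! ### Promises -/

/-- the program satisfies the promise of a randomized algorithm with one-sided error -/
def Prom (P : Prog) (A : ℕ → Bool) (x : List Bool) : Prop := P.prob A x = 0 ∨ 1 / 2 ≤ P.prob A x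

/-- the set recognized by the program -/
def lang (P : Prog) (A : ℕ → Bool) : Set (List Bool) := {x | 1 / 2 ≤ P.prob A x}

theorem inL_lang (P : Prog) (s₀ : ℕ) (A₀ : ℕ → Bool) {A : ℕ → Bool} (hA : ∀ a < s₀, A a = A₀ a)
    (hP : ∀ x, Prom P A x)
    (D : Prog) (hY : ∀ z, 1 / 2 ≤ (codedProg P s₀ A₀).prob empty z → D.Acc empty z fun _ => false)
    (hN : ∀ z, (codedProg P s₀ A₀).prob empty z = 0 → ¬ D.Acc empty z fun _ => false) :
    InL A (lang P A) := by
  refine ⟨onCoded P D, fun x => ?_⟩
  rw [onCoded_acc]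
  have h := codedProg_prob_enc P s₀ A₀ empty A x hA
  constructor
  · intro hx
    refine hY _ ?_
    rw [h]
    exact hx
  · intro hx
    rcases hP x with h0 | h0
    · exact absurd hx (hN _ (by rw [h, h0]))
    · exact h0

/-- Promise problems suffice for every oracle. -/
theorem same_of_promise (h : ∀ Y N, PromiseRL Y N → PromiseL Y N) (A : ℕ → Bool) : Same A := by
  rw [same_iff]
  rintro S ⟨P, hP⟩
  obtain ⟨D, hD1, hD2⟩ := h {z | 1 / 2 ≤ (codedProg P 0 empty).prob empty z}
    {z | (codedProg P 0 empty).prob empty z = 0} ⟨codedProg P 0 empty, fun x hx => hx, fun x hx => hx⟩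
  have hS : S = lang P A := by
    ext x
    constructor
    · exact (hP x).1
    · intro hx
      by_contra h1
      have h2 := (hP x).2 h1
      have h3 : (1 : ℝ) / 2 ≤ P.prob A x := hx
      rw [h2] at h3
      norm_num at h3
  rw [hS]
  refine inL_lang P 0 empty (fun a ha => absurd ha (Nat.not_lt_zero a)) (fun x => ?_) D hD1 hD2
  by_cases hx : x ∈ S
  · exact Or.inr ((hP x).1 hx)
  · exact Or.inl ((hP x).2 hx)

/-- Without promise problems we need the promise for all oracles with a given beginning. -/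
theorem inL_of_same (h : Same empty) (P : Prog) (s₀ : ℕ) (A₀ : ℕ → Bool)
    (hP : ∀ A : ℕ → Bool, (∀ a < s₀, A a = A₀ a) → ∀ x, Prom P A x) {A : ℕ → Bool}
    (hA : ∀ a < s₀, A a = A₀ a) : InL A (lang P A) := by
  have h1 : ∀ z, Prom (codedProg P s₀ A₀) empty z := by
    intro z
    unfold Prom
    rw [codedProg_prob]
    refine hP _ (fun a ha => ?_) _
    unfold dA
    rw [if_pos ha]
  obtain ⟨D, hD⟩ := (h {z | 1 / 2 ≤ (codedProg P s₀ A₀).prob empty z}).1
    ⟨codedProg P s₀ A₀, fun z => ⟨fun hz => hz, fun hz => (h1 z).resolve_right hz⟩⟩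
  refine inL_lang P s₀ A₀ hA (hP A hA) D (fun z hz => (hD z).1 hz) fun z hz hacc => ?_
  have h2 : (1 : ℝ) / 2 ≤ (codedProg P s₀ A₀).prob empty z := (hD z).2 hacc
  rw [hz] at h2
  norm_num at h2

/-! ### Generic oracles -/

theorem exists_cylinder {U : Set (ℕ → Bool)} (hU : IsOpen U) {A : ℕ → Bool} (hA : A ∈ U) :
    ∃ s, PiNat.cylinder A s ⊆ U := by
  obtain ⟨V, hV, hAV, hVU⟩ :=
    (PiNat.isTopologicalBasis_cylinders (fun _ => Bool)).exists_subset_of_mem_open hA hU
  obtain ⟨B, n, rfl⟩ := hV
  refine ⟨n, ?_⟩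
  rwa [PiNat.mem_cylinder_iff_eq.1 hAV]

theorem mem_cyl {A B : ℕ → Bool} {s : ℕ} : B ∈ PiNat.cylinder A s ↔ ∀ a < s, B a = A a := Iff.rfl

theorem isOpen_of_cylinders {U : Set (ℕ → Bool)} (h : ∀ A ∈ U, ∃ s, PiNat.cylinder A s ⊆ U) :
    IsOpen U := by
  rw [isOpen_iff_mem_nhds]
  intro A hA
  obtain ⟨s, hs⟩ := h A hA
  exact Filter.mem_of_superset ((PiNat.isOpen_cylinder (fun _ => Bool) A s).mem_nhds
    (PiNat.self_mem_cylinder A s)) hs

theorem residual_same (h : Same empty) : {A | Same A} ∈ residual (ℕ → Bool) := by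
  have key : ∀ P : Prog, {A | (∃ x, ¬ Prom P A x) ∨ InL A (lang P A)} ∈ residual (ℕ → Bool) := by
    intro P
    refine Filter.mem_of_superset (residual_of_dense_open isOpen_interior ?_) interior_subset
    rw [dense_iff_inter_open]
    rintro V hV ⟨A₀, hA₀⟩
    obtain ⟨s₀, hs₀⟩ := exists_cylinder hV hA₀
    by_cases hbad : ∃ A ∈ PiNat.cylinder A₀ s₀, ∃ x, ¬ Prom P A x
    · obtain ⟨A, hA, x, hx⟩ := hbad
      refine ⟨A, hs₀ hA, ?_⟩
      rw [mem_interior]
      refine ⟨PiNat.cylinder A (P.bound x.length + 1), fun B hB => Or.inl ⟨x, ?_⟩,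
        PiNat.isOpen_cylinder _ _ _, PiNat.self_mem_cylinder _ _⟩
      unfold Prom at *
      rwa [prob_congr P x (A := B) (A' := A) fun a ha => hB a (by omega)]
    · push Not at hbad
      refine ⟨A₀, hA₀, ?_⟩
      rw [mem_interior]
      exact ⟨PiNat.cylinder A₀ s₀, fun B hB => Or.inr (inL_of_same h P s₀ A₀
        (fun A hA x => hbad A hA x) hB), PiNat.isOpen_cylinder _ _ _, PiNat.self_mem_cylinder _ _⟩
  have h2 := (countable_iInter_mem (l := residual (ℕ → Bool))).2 key
  refine Filter.mem_of_superset h2 fun A hA => ?_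
  rw [mem_iInter] at hA
  rw [mem_ofPred_eq, same_iff]
  rintro S ⟨P, hP⟩
  have hS : S = lang P A := by
    ext x
    constructor
    · exact (hP x).1
    · intro hx
      by_contra h1
      have h2 := (hP x).2 h1
      have h3 : (1 : ℝ) / 2 ≤ P.prob A x := hx
      rw [h2] at h3
      norm_num at h3
  rcases hA P with ⟨x, hx⟩ | hL
  · refine absurd ?_ hx
    by_cases hxS : x ∈ S
    · exact Or.inr ((hP x).1 hxS)
    · exact Or.inl ((hP x).2 hxS)
  · rwa [hS]

theorem residual_not_same (h : ¬ Same empty) : {A | ¬ Same A} ∈ residual (ℕ → Bool) := by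
  rw [same_iff] at h
  push Not at h
  obtain ⟨S, hS1, hS2⟩ := h
  have key : ∀ D : Prog, {A | ¬ ∀ x, x ∈ S ↔ D.Acc A x fun _ => false} ∈ residual (ℕ → Bool) := by
    intro D
    refine residual_of_dense_open (isOpen_of_cylinders ?_) ?_
    · intro A hA
      rw [mem_ofPred_eq] at hA
      push Not at hA
      obtain ⟨x, hx⟩ := hA
      refine ⟨D.bound x.length + 1, fun B hB => ?_⟩
      rw [mem_ofPred_eq]
      intro hall
      have h1 := D.acc_congr_oracle x (A := B) (A' := A) (fun a ha => hB a (by omega))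
        (fun _ => false)
      have h2 := hall x
      rw [h1] at h2
      tauto
    · rw [dense_iff_inter_open]
      rintro V hV ⟨A₀, hA₀⟩
      obtain ⟨s₀, hs₀⟩ := exists_cylinder hV hA₀
      by_contra hcon
      refine hS2 ?_
      refine (transfer_finite (A := fun a => if a < s₀ then A₀ a else false) s₀
        (fun a ha => if_neg (by omega)) empty S).2 ⟨D, ?_⟩
      by_contra h2
      refine hcon ⟨_, hs₀ ?_, h2⟩
      intro a ha
      exact if_pos ha
  have h2 := (countable_iInter_mem (l := residual (ℕ → Bool))).2 key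
  refine Filter.mem_of_superset h2 fun A hA => ?_
  rw [mem_iInter] at hA
  rw [mem_ofPred_eq, same_iff]
  intro hsame
  obtain ⟨D, hD⟩ := hsame S ((transfer_empty A S).1 hS1)
  exact hA D hD

theorem same_iff_residual : Same empty ↔ {A | Same A} ∈ residual (ℕ → Bool) := by
  refine ⟨residual_same, fun h => ?_⟩
  by_contra hn
  have h1 := Filter.inter_mem h (residual_not_same hn)
  have h2 : ({A | Same A} ∩ {A | ¬ Same A} : Set (ℕ → Bool)) = ∅ := by
    ext A
    simp
  rw [h2] at h1
  have h3 := dense_of_mem_residual h1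
  exact (h3.nonempty).ne_empty rfl

end Pool.Agent.L0h58.RL
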