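import Pool.Agent.L0h58.RL.Sim

/-!
# Tables, and the existence of simulations
-/

set_option autoImplicit false

namespace Pool.Agent.L0h58.RL

/-- A table for the inputs which start with `pre` and have at most `d - 1` more symbols. -/
def tabS (f : List Bool → Bool) : ℕ → List Bool → Expr
  | 0, _ => .const 0
  | d + 1, pre => .ite (.const 2) (.inp (.const pre.length)) (.const (f pre).toNat)
      (.ite (.const 1) (.inp (.const pre.length)) (tabS f d (pre ++ [true]))
        (tabS f d (pre ++ [false])))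

theorem eval_tabS {W : ℕ} (A : ℕ → Bool) (v : ℕ → ℕ) (b : Bool) (f : List Bool → Bool) (d : ℕ) :
    ∀ pre y : List Bool, y.length < d →
      (tabS f d pre).eval W (pre ++ y) A v b = (f (pre ++ y)).toNat := by
  induction d with
  | zero => intro pre y h; omega
  | succ d ih =>
    intro pre y h
    have hc : ∀ k : ℕ, (Expr.const k).eval W (pre ++ y) A v b = k := fun _ => rfl
    have hi : (Expr.inp (.const pre.length)).eval W (pre ++ y) A v b =
        inputAt (pre ++ y) pre.length := rfl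
    unfold tabS
    cases y with
    | nil =>
      have h0 : inputAt (pre ++ []) pre.length = 2 := by simp [inputAt]
      rw [eval_ite_pos (by rw [hc, hi, h0]), hc, List.append_nil]
    | cons c y =>
      have h0 : inputAt (pre ++ c :: y) pre.length = c.toNat := by simp [inputAt]
      have h1 : c.toNat ≤ 1 := Bool.toNat_le c
      rw [eval_ite_neg (by rw [hc, hi, h0]; omega)]
      have hl : y.length < d := by
        rw [List.length_cons] at h
        omega
      cases c with
      | true =>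
        rw [eval_ite_pos (by rw [hc, hi, h0]; exact le_rfl)]
        have := ih (pre ++ [true]) y hl
        simpa using this
      | false =>
        rw [eval_ite_neg (by rw [hc, hi, h0]; simp)]
        have := ih (pre ++ [false]) y hl
        simpa using this

/-- A table for the numbers `< m`. -/
def tabO (f : ℕ → Bool) : ℕ → Expr → Expr
  | 0, _ => .const 0
  | m + 1, e => .ite (.const m) e (.const (f m).toNat) (tabO f m e)

theorem eval_tabO {W : ℕ} (x : List Bool) (A : ℕ → Bool) (v : ℕ → ℕ) (b : Bool) (f : ℕ → Bool)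
    (m : ℕ) (e : Expr) (h : e.eval W x A v b < m) :
    (tabO f m e).eval W x A v b = (f (e.eval W x A v b)).toNat := by
  induction m with
  | zero => omega
  | succ m ih =>
    unfold tabO
    by_cases hm : m ≤ e.eval W x A v b
    · rw [eval_ite_pos (show (Expr.const m).eval W x A v b ≤ _ from hm)]
      have : e.eval W x A v b = m := by omega
      rw [this]
      rfl
    · rw [eval_ite_neg (show ¬ (Expr.const m).eval W x A v b ≤ _ from hm)]
      exact ih (by omega)

/-- the output: a table for the inputs of length less than `n₀` -/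
def outE (n₀ : ℕ) (f : List Bool → Bool) : Expr := .ite (.const n₀) .len (.reg 3) (tabS f n₀ [])

/-- The conditions for a simulation, for inputs of length at least `n₀`. -/
structure Conds (P : Prog) (A' : ℕ → Bool) (c' : ℕ) (s₁ s₂ L : Expr) (I O : Expr → Expr)
    (x' : List Bool) (s : ℕ) (x : List Bool) (A : ℕ → Bool) : Prop where
  scan : ∀ v b, v 2 < s → s₁.eval ((x'.length + 2) ^ (c' + 1)) x' A' v b ≤
    s₂.eval ((x'.length + 2) ^ (c' + 1)) x' A' v b
  stop : ∀ v b, v 2 = s → ¬ s₁.eval ((x'.length + 2) ^ (c' + 1)) x' A' v b ≤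
    s₂.eval ((x'.length + 2) ^ (c' + 1)) x' A' v b
  len : ∀ v b, v 2 = s → L.eval ((x'.length + 2) ^ (c' + 1)) x' A' v b = x.length
  inp : ∀ v b, v 2 = s → ∀ e : Expr, (I e).eval ((x'.length + 2) ^ (c' + 1)) x' A' v b =
    inputAt x (e.eval ((x'.length + 2) ^ (c' + 1)) x' A' v b)
  orc : ∀ v b, v 2 = s → ∀ e : Expr,
    e.eval ((x'.length + 2) ^ (c' + 1)) x' A' v b ≤ P.bound x.length →
    (O e).eval ((x'.length + 2) ^ (c' + 1)) x' A' v b =
      (A (e.eval ((x'.length + 2) ^ (c' + 1)) x' A' v b)).toNat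
  time : s + P.bound x.length + 1 ≤ (x'.length + 2) ^ (c' + 1)

/-- The simulating program. -/
def simProg (P : Prog) (n₀ : ℕ) (f : List Bool → Bool) (c' : ℕ) (s₁ s₂ L : Expr)
    (I O : Expr → Expr) : Prog := (Sim.mk s₁ s₂ L .coin I O (outE n₀ f) c').prog P

theorem simProg_bound (P : Prog) (n₀ : ℕ) (f : List Bool → Bool) (c' : ℕ) (s₁ s₂ L : Expr)
    (I O : Expr → Expr) (n : ℕ) :
    (simProg P n₀ f c' s₁ s₂ L I O).bound n = (n + 2) ^ (c' + 1) := rfl

theorem simProg_acc {P : Prog} {A' : ℕ → Bool} (n₀ : ℕ) (f : List Bool → Bool) {c' : ℕ}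
    {s₁ s₂ L : Expr} {I O : Expr → Expr} {x' : List Bool} {s : ℕ} {x : List Bool} {A : ℕ → Bool}
    (hn : n₀ ≤ x'.length) (h : Conds P A' c' s₁ s₂ L I O x' s x A) (r' : ℕ → Bool) :
    (simProg P n₀ f c' s₁ s₂ L I O).Acc A' x' r' ↔ P.Acc A x fun t => r' (s + t) := by
  have hOK : (Sim.mk s₁ s₂ L .coin I O (outE n₀ f) c').OK P A A' x x' (fun t => r' (s + t)) r' s :=
    { scan := h.scan
      stop := h.stop
      len := h.len
      coin := fun v t _ _ _ => rfl
      inp := h.inp
      orc := h.orc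
      time := h.time }
  refine hOK.acc fun v b _ h3 => ?_
  change (outE n₀ f).eval _ _ _ _ _ ≠ 0 ↔ _
  unfold outE
  rw [eval_ite_pos (show (Expr.const n₀).eval _ x' A' v b ≤ Expr.len.eval _ x' A' v b from hn)]
  change v 3 ≠ 0 ↔ _
  rw [h3]
  rfl

theorem simProg_small (P : Prog) (A' : ℕ → Bool) (n₀ : ℕ) (f : List Bool → Bool) (c' : ℕ)
    (s₁ s₂ L : Expr) (I O : Expr → Expr) (x' : List Bool) (hn : x'.length < n₀) (r' : ℕ → Bool) :
    (simProg P n₀ f c' s₁ s₂ L I O).Acc A' x' r' ↔ f x' = true := by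
  refine Sim.acc_const _ P A' x' r' fun v b => ?_
  generalize ((Sim.mk s₁ s₂ L .coin I O (outE n₀ f) c').prog P).bound x'.length = W
  change (outE n₀ f).eval W x' A' v b ≠ 0 ↔ _
  unfold outE
  rw [eval_ite_neg (show ¬ (Expr.const n₀).eval W x' A' v b ≤ Expr.len.eval W x' A' v b by
    change ¬ n₀ ≤ x'.length
    omega)]
  have := eval_tabS (W := W) A' v b f n₀ [] x' hn
  rw [List.nil_append] at this
  rw [this]
  cases f x' <;> simp

theorem simProg_prob {P : Prog} {A' : ℕ → Bool} (f : List Bool → Bool) {c' : ℕ}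
    {s₁ s₂ L : Expr} {I O : Expr → Expr} {x' : List Bool} {s : ℕ} {x : List Bool} {A : ℕ → Bool}
    (h : Conds P A' c' s₁ s₂ L I O x' s x A) :
    (simProg P 0 f c' s₁ s₂ L I O).prob A' x' = P.prob A x := by
  refine prob_sim P _ A A' x x' s ?_ fun r => simProg_acc 0 f (Nat.zero_le _) h r
  have := h.time
  rw [simProg_bound]
  omega

/-- never count -/
theorem no_scan {W' : ℕ} {x' : List Bool} {A' : ℕ → Bool} : ∀ (v : ℕ → ℕ) (b : Bool), v 2 = 0 →
    ¬ (Expr.const 1).eval W' x' A' v b ≤ (Expr.const 0).eval W' x' A' v b := by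
  intro v b _
  change ¬ 1 ≤ 0
  omega

theorem no_scan' {W' : ℕ} {x' : List Bool} {A' : ℕ → Bool} : ∀ (v : ℕ → ℕ) (b : Bool), v 2 < 0 →
    (Expr.const 1).eval W' x' A' v b ≤ (Expr.const 0).eval W' x' A' v b := by
  intro v b h
  omega

/-- Simulation with the same input and another oracle. -/
theorem conds_oracle (P : Prog) (A A' : ℕ → Bool) (O : Expr → Expr) (x : List Bool)
    (hO : ∀ v b, ∀ e : Expr, (O e).eval ((x.length + 2) ^ (P.c + 1 + 1)) x A' v b =
      (A (e.eval ((x.length + 2) ^ (P.c + 1 + 1)) x A' v b)).toNat ∨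
      P.bound x.length < e.eval ((x.length + 2) ^ (P.c + 1 + 1)) x A' v b) :
    Conds P A' (P.c + 1) (.const 1) (.const 0) .len .inp O x 0 x A where
  scan := no_scan'
  stop := no_scan
  len := fun _ _ _ => rfl
  inp := fun _ _ _ _ => rfl
  orc := fun v b _ e he => (hO v b e).resolve_right (by omega)
  time := by
    have h1 : (x.length + 2) ^ (P.c + 1 + 1) = (x.length + 2) ^ (P.c + 1) * (x.length + 2) :=
      pow_succ _ _
    have h2 := P.bound_ge x.length
    unfold Prog.bound at *
    rw [h1]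
    nlinarith

/-- finite modifications -/
theorem exists_patch (P : Prog) (A : ℕ → Bool) (n₀ : ℕ) (f : List Bool → Bool) :
    ∃ Q : Prog, ∀ x, (n₀ ≤ x.length → (Q.Acc A x (fun _ => false) ↔ P.Acc A x fun _ => false)) ∧
      (x.length < n₀ → (Q.Acc A x (fun _ => false) ↔ f x = true)) := by
  refine ⟨simProg P n₀ f (P.c + 1) (.const 1) (.const 0) .len .inp .orc, fun x => ⟨fun hx => ?_,
    fun hx => simProg_small P A n₀ f _ _ _ _ _ _ x hx _⟩⟩
  refine simProg_acc n₀ f hx (s := 0) (conds_oracle P A A .orc x fun v b e => ?_) _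
  by_cases h : e.eval ((x.length + 2) ^ (P.c + 1 + 1)) x A v b ≤ P.bound x.length
  · left
    change (A (min _ _)).toNat = _
    rw [min_eq_left (h.trans ?_)]
    exact Nat.pow_le_pow_right (by omega) (by omega)
  · right
    omega

theorem inL_of_large (P : Prog) (A : ℕ → Bool) (S : Set (List Bool)) (n₀ : ℕ)
    (h : ∀ x, n₀ ≤ x.length → (x ∈ S ↔ P.Acc A x fun _ => false)) : InL A S := by
  classical
  obtain ⟨Q, hQ⟩ := exists_patch P A n₀ (fun x => decide (x ∈ S))
  refine ⟨Q, fun x => ?_⟩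
  rcases le_or_gt n₀ x.length with hx | hx
  · rw [h x hx, (hQ x).1 hx]
  · rw [(hQ x).2 hx, decide_eq_true_iff]

theorem promiseL_of_large (P : Prog) (Y N : Set (List Bool)) (n₀ : ℕ) (hYN : ∀ x ∈ Y, x ∉ N)
    (h : ∀ x, n₀ ≤ x.length → (x ∈ Y → P.Acc empty x fun _ => false) ∧
      (x ∈ N → ¬ P.Acc empty x fun _ => false)) : PromiseL Y N := by
  classical
  obtain ⟨Q, hQ⟩ := exists_patch P empty n₀ (fun x => decide (x ∈ Y))
  refine ⟨Q, fun x hx => ?_, fun x hx => ?_⟩
  · rcases le_or_gt n₀ x.length with hl | hl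
    · exact ((hQ x).1 hl).2 ((h x hl).1 hx)
    · exact ((hQ x).2 hl).2 (decide_eq_true hx)
  · rcases le_or_gt n₀ x.length with hl | hl
    · rw [(hQ x).1 hl]
      exact (h x hl).2 hx
    · rw [(hQ x).2 hl, decide_eq_true_iff]
      exact fun hy => hYN x hy hx

end Pool.Agent.L0h58.RL
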