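import Pool.Agent.L0h58.RL.Rand
import Pool.Agent.L0h58.RL.Top
import Mathlib.Analysis.SpecialFunctions.Pow.Real
import Mathlib.MeasureTheory.OuterMeasure.BorelCantelli
import Mathlib.Analysis.SpecificLimits.Basic

/-!
# `RL = L` relative to almost all oracles
-/

set_option autoImplicit false

namespace Pool.Agent.L0h58.RL

open MeasureTheory ProbabilityTheory Set Filter

theorem sizes (P : Prog) (d : ℕ) (x : List Bool) : Big P d (P.c + d + 4) x ∧
    5 * x.length * per P d x ≤ (trials P d (P.c + d + 4)).bound x.length ∧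
    P.bound x.length + 1 + 5 * x.length * (P.bound x.length * (x.length + 2) ^ d) ≤
      (trials P d (P.c + d + 4)).bound x.length := by
  obtain ⟨n, hn⟩ : ∃ n, n = x.length := ⟨_, rfl⟩
  rw [← hn]
  have h1 : (trials P d (P.c + d + 4)).bound n = P.bound n * (n + 2) ^ d * (n + 2) ^ 4 := by
    unfold Prog.bound
    change (n + 2) ^ (P.c + d + 4 + 1) = _
    ring
  have hT : 2 ≤ P.bound n := (by omega : 2 ≤ n + 2).trans (P.bound_ge n)
  have hm : 1 ≤ (n + 2) ^ d := Nat.one_le_pow _ _ (by omega)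
  have h4 : 15 * n + 4 ≤ (n + 2) ^ 4 := by
    have e : (n + 2) ^ 4 = n ^ 4 + 8 * n ^ 3 + 24 * n ^ 2 + 32 * n + 16 := by ring
    rw [e]
    nlinarith [Nat.zero_le (n ^ 4), Nat.zero_le (n ^ 3), Nat.zero_le (n ^ 2)]
  have hTm : P.bound n ≤ P.bound n * (n + 2) ^ d := Nat.le_mul_of_pos_right _ hm
  have hTm' : (n + 2) ^ d ≤ P.bound n * (n + 2) ^ d := Nat.le_mul_of_pos_left _ (by omega)
  obtain ⟨y, hy⟩ : ∃ y, y = P.bound n * (n + 2) ^ d := ⟨_, rfl⟩
  rw [← hy] at h1 hTm hTm'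
  have hbig : (15 * n + 4) * y ≤ (trials P d (P.c + d + 4)).bound n := by
    rw [h1, Nat.mul_comm y]
    exact Nat.mul_le_mul_right _ h4
  refine ⟨⟨?_, ?_⟩, ?_, ?_⟩
  · rw [← hn]
    nlinarith
  · rw [← hn]
    nlinarith
  · have hper : per P d x ≤ 3 * y := by
      unfold per
      rw [← hn, Nat.mul_add, ← hy]
      omega
    calc 5 * n * per P d x ≤ 5 * n * (3 * y) := Nat.mul_le_mul_left _ hper
      _ ≤ (15 * n + 4) * y := by nlinarith
      _ ≤ _ := hbig
  · rw [← hy]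
    calc P.bound n + 1 + 5 * n * y ≤ y + y + 5 * n * y := by omega
      _ ≤ (15 * n + 4) * y := by nlinarith
      _ ≤ _ := hbig

variable (ν : ℕ → Measure Bool) [∀ j, IsProbabilityMeasure (ν j)]

theorem exp_small (κ : ℝ) (hκ : 0 < κ) (k : ℕ) : ∃ n₁ : ℕ, ∀ n : ℕ, n₁ ≤ n →
    ((n : ℝ) + 2) ^ k * Real.exp (-(κ * ((n : ℝ) + 2))) ≤ 1 / 2 := by
  have h1 := Real.tendsto_pow_mul_exp_neg_atTop_nhds_zero k
  have h2 : Tendsto (fun n : ℕ => κ * ((n : ℝ) + 2)) atTop atTop :=
    (tendsto_natCast_atTop_atTop.atTop_add tendsto_const_nhds).const_mul_atTop hκ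
  have h3 := (h1.comp h2).eventually_lt_const (show (0 : ℝ) < κ ^ k / 2 by positivity)
  obtain ⟨n₁, hn₁⟩ := eventually_atTop.1 h3
  refine ⟨n₁, fun n hn => ?_⟩
  have h4 := (hn₁ n hn).le
  simp only [Function.comp, mul_pow] at h4
  have h5 : 0 < κ ^ k := by positivity
  have h6 : κ ^ k * (((n : ℝ) + 2) ^ k * Real.exp (-(κ * ((n : ℝ) + 2)))) ≤ κ ^ k * (1 / 2) := by
    calc _ = κ ^ k * ((n : ℝ) + 2) ^ k * Real.exp (-(κ * ((n : ℝ) + 2))) := by ring
      _ ≤ κ ^ k / 2 := h4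
      _ = _ := by ring
  exact le_of_mul_le_mul_left h6 h5

theorem params {c κ : ℝ} (hc : c < 1) (hκ : 0 < κ)
    (hν : ∀ (j : ℕ) (b : Bool), κ * ((j : ℝ) + 1) ^ (-c) ≤ (ν j).real {b}) (e : ℕ) (k : ℕ) :
    ∃ d n₁ : ℕ, ∀ n, n₁ ≤ n → ∃ δ : ℝ, δ ≤ 1 / 2 ∧
      ((n : ℝ) + 2) ^ k * (1 - 2 * δ) ^ ((n + 2) ^ d) ≤ 1 / 2 ∧
      ∀ i ≤ (n + 2) ^ (e + d), ∀ b, δ ≤ (ν i).real {b} := by
  obtain ⟨c₀, hc₀⟩ : ∃ c₀, c₀ = max c 0 := ⟨_, rfl⟩
  have hc0 : 0 ≤ c₀ := by rw [hc₀]; exact le_max_right _ _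
  have hc1 : c₀ < 1 := by rw [hc₀]; exact max_lt hc one_pos
  have hcc : c ≤ c₀ := by rw [hc₀]; exact le_max_left _ _
  obtain ⟨d, hd⟩ := exists_nat_ge (((e : ℝ) + 1) / (1 - c₀))
  have hd' : (e : ℝ) + 1 ≤ d * (1 - c₀) := (div_le_iff₀ (by linarith)).1 hd
  obtain ⟨n₁, hn₁⟩ := exp_small κ hκ k
  refine ⟨d, n₁, fun n hn => ?_⟩
  obtain ⟨y, hy⟩ : ∃ y : ℝ, y = (n : ℝ) + 2 := ⟨_, rfl⟩
  have hy2 : 2 ≤ y := by
    rw [hy]
    have : (0 : ℝ) ≤ n := Nat.cast_nonneg n
    linarith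
  obtain ⟨W, hW⟩ : ∃ W : ℝ, W = y ^ (e + d) := ⟨_, rfl⟩
  have hW1 : 1 ≤ W := by
    rw [hW]
    exact one_le_pow₀ (by linarith)
  have hδ : ∀ i ≤ (n + 2) ^ (e + d), ∀ b, κ * (W + 1) ^ (-c₀) ≤ (ν i).real {b} := by
    intro i hi b
    have hi' : (i : ℝ) ≤ W := by
      rw [hW, hy]
      exact_mod_cast hi
    have hi0 : (0 : ℝ) ≤ i := Nat.cast_nonneg i
    calc κ * (W + 1) ^ (-c₀) ≤ κ * ((i : ℝ) + 1) ^ (-c₀) := by
          refine mul_le_mul_of_nonneg_left ?_ hκ.le
          exact Real.rpow_le_rpow_of_nonpos (by linarith) (by linarith) (by linarith)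
      _ ≤ κ * ((i : ℝ) + 1) ^ (-c) := by
          refine mul_le_mul_of_nonneg_left ?_ hκ.le
          exact Real.rpow_le_rpow_of_exponent_le (by linarith) (by linarith)
      _ ≤ _ := hν i b
  have hhalf : κ * (W + 1) ^ (-c₀) ≤ 1 / 2 := by
    have h1 := hδ 0 (Nat.zero_le _) true
    have h2 := hδ 0 (Nat.zero_le _) false
    have h3 : (ν 0).real {false} = 1 - (ν 0).real {true} := by
      rw [← probReal_compl_eq_one_sub (measurableSet_singleton true)]
      congr 1
      ext b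
      cases b <;> simp
    rw [h3] at h2
    linarith
  refine ⟨κ * (W + 1) ^ (-c₀), hhalf, ?_, hδ⟩
  have hpos : 0 < (W + 1) ^ (-c₀) := Real.rpow_pos_of_pos (by linarith) _
  have h1 : (1 / 2 : ℝ) * y ^ (-(((e : ℝ) + d) * c₀)) ≤ (W + 1) ^ (-c₀) := by
    calc (1 / 2 : ℝ) * y ^ (-(((e : ℝ) + d) * c₀))
        = (2 : ℝ) ^ (-1 : ℝ) * W ^ (-c₀) := by
          rw [hW, ← Real.rpow_natCast y (e + d), ← Real.rpow_mul (by linarith)]
          congr 1
          · rw [Real.rpow_neg_one]; norm_num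
          · congr 1
            push_cast
            ring
      _ ≤ (2 : ℝ) ^ (-c₀) * W ^ (-c₀) := by
          refine mul_le_mul_of_nonneg_right ?_ (Real.rpow_nonneg (by linarith) _)
          exact Real.rpow_le_rpow_of_exponent_le (by norm_num) (by linarith)
      _ = (2 * W) ^ (-c₀) := (Real.mul_rpow (by norm_num) (by linarith)).symm
      _ ≤ (W + 1) ^ (-c₀) :=
          Real.rpow_le_rpow_of_nonpos (by linarith) (by linarith) (by linarith)
  have h2 : y ≤ y ^ (-(((e : ℝ) + d) * c₀)) * y ^ d := by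
    rw [← Real.rpow_natCast y d, ← Real.rpow_add (by linarith)]
    calc y = y ^ (1 : ℝ) := (Real.rpow_one y).symm
      _ ≤ _ := Real.rpow_le_rpow_of_exponent_le (by linarith) (by
        have he : (0 : ℝ) ≤ e := Nat.cast_nonneg e
        have h3 : (e : ℝ) * c₀ ≤ e := by nlinarith
        nlinarith)
  have hyd : 0 ≤ y ^ d := by positivity
  have h3 : κ / 2 * y ≤ κ * (W + 1) ^ (-c₀) * y ^ d := by
    calc κ / 2 * y ≤ κ / 2 * (y ^ (-(((e : ℝ) + d) * c₀)) * y ^ d) :=
          mul_le_mul_of_nonneg_left h2 (by linarith)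
      _ = κ * ((1 / 2 : ℝ) * y ^ (-(((e : ℝ) + d) * c₀))) * y ^ d := by ring
      _ ≤ κ * (W + 1) ^ (-c₀) * y ^ d := by
          refine mul_le_mul_of_nonneg_right ?_ hyd
          exact mul_le_mul_of_nonneg_left h1 hκ.le
  have h4 : (1 - 2 * (κ * (W + 1) ^ (-c₀))) ^ ((n + 2) ^ d) ≤ Real.exp (-(κ * y)) := by
    have h5 : 1 - 2 * (κ * (W + 1) ^ (-c₀)) ≤ Real.exp (-(2 * (κ * (W + 1) ^ (-c₀)))) := by
      have := Real.add_one_le_exp (-(2 * (κ * (W + 1) ^ (-c₀))))
      linarith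
    calc (1 - 2 * (κ * (W + 1) ^ (-c₀))) ^ ((n + 2) ^ d)
        ≤ (Real.exp (-(2 * (κ * (W + 1) ^ (-c₀))))) ^ ((n + 2) ^ d) :=
          pow_le_pow_left₀ (by linarith) h5 _
      _ = Real.exp (((n + 2) ^ d : ℕ) * (-(2 * (κ * (W + 1) ^ (-c₀))))) := by
          rw [Real.exp_nat_mul]
      _ ≤ Real.exp (-(κ * y)) := by
          rw [Real.exp_le_exp]
          push_cast
          rw [← hy]
          nlinarith
  have h5 := hn₁ n hn
  rw [← hy] at h5 ⊢
  exact (mul_le_mul_of_nonneg_left h4 (by positivity)).trans h5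

/-- Almost surely only finitely many inputs are bad. -/
theorem ae_bad {c κ : ℝ} (hc : c < 1) (hκ : 0 < κ)
    (hν : ∀ (j : ℕ) (b : Bool), κ * ((j : ℝ) + 1) ^ (-c) ≤ (ν j).real {b}) (P : Prog) :
    ∃ d : ℕ, ∀ᵐ A ∂(Measure.infinitePi ν), ∃ n₀ : ℕ, ∀ x : List Bool, n₀ ≤ x.length →
      A ∉ Bad P x ((x.length + 2) ^ d) (5 * x.length) := by
  obtain ⟨d, n₁, h⟩ := params ν hc hκ hν (P.c + 5) (P.c + 1)
  refine ⟨d, ?_⟩
  classical
  let s : ℕ → Set (ℕ → Bool) := fun n =>
    if n₁ ≤ n then ⋃ f : Fin n → Bool, Bad P (List.ofFn f) ((n + 2) ^ d) (5 * n) else ∅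
  have hs : ∀ n, Measure.infinitePi ν (s n) ≤ ENNReal.ofReal ((1 / 2) ^ n) := by
    intro n
    by_cases hn : n₁ ≤ n
    · obtain ⟨δ, h1, h2, h3⟩ := h n hn
      have hbad : ∀ f : Fin n → Bool, pr ν (Bad P (List.ofFn f) ((n + 2) ^ d) (5 * n)) ≤
          (3 / 4) ^ (5 * n) := by
        intro f
        have hl : (List.ofFn f).length = n := List.length_ofFn
        have hsz := (sizes P d (List.ofFn f)).2.2
        rw [hl] at hsz
        have hb : (trials P d (P.c + d + 4)).bound n = (n + 2) ^ (P.c + 5 + d) := by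
          change (n + 2) ^ (P.c + d + 4 + 1) = _
          congr 1
          omega
        rw [hb] at hsz
        refine pr_bad_le ν (δ := δ) (pow_nonneg (by linarith) _) ?_ fun i hi => h3 i ?_
        · rw [hl]
          have : ((P.bound n : ℕ) : ℝ) = ((n : ℝ) + 2) ^ (P.c + 1) := by
            unfold Prog.bound
            push_cast
            rfl
          rw [this]
          exact h2
        · rw [hl] at hi
          omega
      have h4 : pr ν (s n) ≤ (1 / 2) ^ n := by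
        change pr ν (if n₁ ≤ n then _ else _) ≤ _
        rw [if_pos hn]
        calc pr ν (⋃ f : Fin n → Bool, Bad P (List.ofFn f) ((n + 2) ^ d) (5 * n))
            ≤ ∑ f : Fin n → Bool, pr ν (Bad P (List.ofFn f) ((n + 2) ^ d) (5 * n)) :=
              measureReal_iUnion_fintype_le _
          _ ≤ ∑ _f : Fin n → Bool, ((3 : ℝ) / 4) ^ (5 * n) := Finset.sum_le_sum fun f _ => hbad f
          _ = 2 ^ n * ((3 : ℝ) / 4) ^ (5 * n) := by
              rw [Finset.sum_const, Finset.card_univ, Fintype.card_fun, Fintype.card_bool,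
                Fintype.card_fin, nsmul_eq_mul]
              push_cast
              rfl
          _ = (2 * ((3 : ℝ) / 4) ^ 5) ^ n := by rw [mul_pow, pow_mul]
          _ ≤ (1 / 2) ^ n := pow_le_pow_left₀ (by positivity) (by norm_num) _
      have h5 : Measure.infinitePi ν (s n) = ENNReal.ofReal (pr ν (s n)) := by
        unfold pr
        exact (ofReal_measureReal).symm
      rw [h5]
      exact ENNReal.ofReal_le_ofReal h4
    · change Measure.infinitePi ν (if n₁ ≤ n then _ else _) ≤ _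
      rw [if_neg hn, measure_empty]
      exact bot_le
  have hsum : ∑' n, Measure.infinitePi ν (s n) ≠ ⊤ := by
    refine ne_top_of_le_ne_top ?_ (ENNReal.tsum_le_tsum hs)
    exact (summable_geometric_of_lt_one (by norm_num) (by norm_num)).tsum_ofReal_ne_top
  filter_upwards [ae_eventually_notMem hsum] with A hA
  obtain ⟨n₀, hn₀⟩ := eventually_atTop.1 hA
  refine ⟨max n₀ n₁, fun x hx hbad => hn₀ x.length ((le_max_left _ _).trans hx) ?_⟩
  change A ∈ if n₁ ≤ x.length then _ else _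
  rw [if_pos ((le_max_right _ _).trans hx), mem_iUnion]
  refine ⟨fun i => x[i], ?_⟩
  have : List.ofFn (fun i : Fin x.length => x[i]) = x := List.ofFn_getElem
  rw [this]
  exact hbad

theorem inL_of_bad {P : Prog} {d : ℕ} {A : ℕ → Bool} {n₀ : ℕ}
    (h : ∀ x : List Bool, n₀ ≤ x.length → A ∉ Bad P x ((x.length + 2) ^ d) (5 * x.length))
    {S : Set (List Bool)} (hS : ∀ x, (x ∈ S → 1 / 2 ≤ P.prob A x) ∧ (x ∉ S → P.prob A x = 0)) :
    InL A S := by
  refine inL_of_large (trials P d (P.c + d + 4)) A S n₀ fun x hx => ?_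
  obtain ⟨hB, hs1, hs2⟩ := sizes P d x
  rw [trials_acc hB]
  have hg : ∀ a, P.bound x.length + 1 + a + (x.length + 2) ^ d * P.bound x.length ≤
      (trials P d (P.c + d + 4)).bound x.length → ∀ s < P.bound x.length,
      coins (β P d (P.c + d + 4) A x) ((x.length + 2) ^ d) a s =
        coins A ((x.length + 2) ^ d) (P.bound x.length + 1 + a) s := by
    intro a ha s hs
    have key : ∀ u ≤ (x.length + 2) ^ d,
        par (β P d (P.c + d + 4) A x) (a + s * (x.length + 2) ^ d) u =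
        par A (P.bound x.length + 1 + a + s * (x.length + 2) ^ d) u := by
      intro u
      induction u with
      | zero => exact fun _ => rfl
      | succ u ih =>
        intro hu
        unfold par
        rw [ih (by omega)]
        congr 1
        unfold β
        have h1 : (s + 1) * (x.length + 2) ^ d ≤ P.bound x.length * (x.length + 2) ^ d :=
          Nat.mul_le_mul_right _ hs
        rw [min_eq_left (by nlinarith)]
        congr 1
        ring
    exact key _ le_rfl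
  constructor
  · intro hxS
    by_contra hcon
    refine h x hx ⟨(hS x).1 hxS, fun j hj hacc => hcon ⟨j, ?_, ?_⟩⟩
    · have h1 : 5 * x.length ≤ (trials P d (P.c + d + 4)).bound x.length / per P d x :=
        (Nat.le_div_iff_mul_le (Nat.succ_pos _)).2 hs1
      omega
    · refine (P.acc_congr x (fun _ _ => rfl) fun s hs => ?_).2 hacc
      refine hg _ ?_ s hs
      have h1 : (j + 1) * (P.bound x.length * (x.length + 2) ^ d) ≤
          5 * x.length * (P.bound x.length * (x.length + 2) ^ d) := Nat.mul_le_mul_right _ hj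
      nlinarith
  · rintro ⟨j, -, hacc⟩
    by_contra hxS
    exact (prob_eq_zero_iff P A x).1 ((hS x).2 hxS) _ hacc

theorem ae_same {c κ : ℝ} (hc : c < 1) (hκ : 0 < κ)
    (hν : ∀ (j : ℕ) (b : Bool), κ * ((j : ℝ) + 1) ^ (-c) ≤ (ν j).real {b}) :
    ∀ᵐ A ∂(Measure.infinitePi ν), Same A := by
  have h1 : ∀ P : Prog, ∀ᵐ A ∂(Measure.infinitePi ν), ∃ d n₀ : ℕ, ∀ x : List Bool,
      n₀ ≤ x.length → A ∉ Bad P x ((x.length + 2) ^ d) (5 * x.length) := by
    intro P
    obtain ⟨d, hd⟩ := ae_bad ν hc hκ hν P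
    filter_upwards [hd] with A hA
    exact ⟨d, hA⟩
  filter_upwards [ae_all_iff.2 h1] with A hA
  rw [same_iff]
  rintro S ⟨P, hP⟩
  obtain ⟨d, n₀, h⟩ := hA P
  exact inL_of_bad h hP

theorem ae_finite (hν : Summable fun j => (ν j).real {true}) :
    ∀ᵐ A ∂(Measure.infinitePi ν), (Same A ↔ Same empty) := by
  have hsum : ∑' j, Measure.infinitePi ν {A : ℕ → Bool | A j = true} ≠ ⊤ := by
    have h1 : ∀ j, Measure.infinitePi ν {A : ℕ → Bool | A j = true} =
        ENNReal.ofReal ((ν j).real {true}) := by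
      intro j
      rw [← pr_coord ν j true]
      unfold pr
      exact (ofReal_measureReal).symm
    simp only [h1]
    exact hν.tsum_ofReal_ne_top
  filter_upwards [ae_eventually_notMem hsum] with A hA
  obtain ⟨m, hm⟩ := eventually_atTop.1 hA
  refine same_finite m fun a ha => ?_
  have := hm a ha
  cases h : A a with
  | false => rfl
  | true => exact absurd h this

end Pool.Agent.L0h58.RL
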