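import Pool.Agent.L0h58.RL.Top

/-!
# If `RL = L` relative to all oracles then the promise classes are equal
-/

set_option autoImplicit false

namespace Pool.Agent.L0h58.RL

open Set

/-- the instance of length `n` in the oracle -/
def blk (n : ℕ) (A : ℕ → Bool) : List Bool := (List.range n).map fun i => A (n * n + 1 + i)

theorem length_blk (n : ℕ) (A : ℕ → Bool) : (blk n A).length = n := by simp [blk]

theorem inputAt_blk (n : ℕ) (A : ℕ → Bool) (i : ℕ) : inputAt (blk n A) i =
    if i < n then (A (n * n + 1 + i)).toNat else 2 := by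
  split_ifs with h
  · rw [inputAt_of_lt (by rw [length_blk]; exact h)]
    simp [blk]
  · rw [inputAt_of_ge (by rw [length_blk]; omega)]

theorem blk_congr {n : ℕ} {A B : ℕ → Bool} (h : ∀ i < n, A (n * n + 1 + i) = B (n * n + 1 + i)) :
    blk n A = blk n B := by
  unfold blk
  refine List.map_congr_left fun i hi => h i (List.mem_range.1 hi)

/-- the oracles in which all instances satisfy the promise -/
def Good (Y N : Set (List Bool)) : Set (ℕ → Bool) :=
  {A | ∀ n, A (n * n) = true → blk n A ∈ Y ∪ N}

theorem isClosed_good (Y N : Set (List Bool)) : IsClosed (Good Y N) := by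
  rw [← isOpen_compl_iff]
  refine isOpen_of_cylinders fun A hA => ?_
  rw [mem_compl_iff, Good, mem_ofPred_eq] at hA
  push Not at hA
  obtain ⟨n, h1, h2⟩ := hA
  refine ⟨n * n + n + 1, fun B hB hgood => ?_⟩
  have h3 : B (n * n) = true := by rw [hB _ (by omega), h1]
  have h4 := hgood n h3
  rw [blk_congr (B := A) fun i hi => hB _ (by omega)] at h4
  exact h2 h4

/-- the set given by the instances in the oracle -/
def inst (Y : Set (List Bool)) (A : ℕ → Bool) : Set (List Bool) :=
  {x | A (x.length * x.length) = true ∧ blk x.length A ∈ Y}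

/-- the program which simulates `P` on the instance in the oracle -/
def instProg (P : Prog) : Prog :=
  (Sim.mk (.const 1) (.const 0) .len .coin
    (fun e => .ite (.add e (.const 1)) .len
      (.orc (.add (.add (.mul .len .len) (.const 1)) e)) (.const 2))
    (fun _ => .const 0)
    (.ite (.const 1) (.orc (.mul .len .len)) (.reg 3) (.const 0))
    (P.c + 1)).prog P

theorem instProg_bound (P : Prog) (n : ℕ) : (instProg P).bound n = (n + 2) ^ (P.c + 1 + 1) := rfl

theorem sq_le_bound (P : Prog) (n : ℕ) : n * n + n + 1 ≤ (n + 2) ^ (P.c + 1 + 1) := by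
  calc n * n + n + 1 ≤ (n + 2) ^ 2 := by nlinarith
    _ ≤ _ := Nat.pow_le_pow_right (by omega) (by omega)

theorem time_succ (P : Prog) (n : ℕ) : 0 + P.bound n + 1 ≤ (n + 2) ^ (P.c + 1 + 1) := by
  have h1 : (n + 2) ^ (P.c + 1 + 1) = (n + 2) ^ (P.c + 1) * (n + 2) := pow_succ _ _
  have h2 := P.bound_ge n
  unfold Prog.bound at *
  rw [h1]
  nlinarith

theorem instProg_acc (P : Prog) (A : ℕ → Bool) (x : List Bool) (r : ℕ → Bool) :
    (instProg P).Acc A x r ↔
      A (x.length * x.length) = true ∧ P.Acc empty (blk x.length A) r := by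
  have hb := sq_le_bound P x.length
  have hOK : (Sim.mk (.const 1) (.const 0) .len .coin
    (fun e => .ite (.add e (.const 1)) .len
      (.orc (.add (.add (.mul .len .len) (.const 1)) e)) (.const 2))
    (fun _ => .const 0)
    (.ite (.const 1) (.orc (.mul .len .len)) (.reg 3) (.const 0))
    (P.c + 1)).OK P empty A (blk x.length A) x r r 0 :=
    { scan := no_scan'
      stop := no_scan
      len := fun v b _ => by rw [length_blk]; rfl
      coin := fun v t _ _ _ => by rw [Nat.zero_add]; rfl
      inp := fun v b _ e => by
        rw [inputAt_blk]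
        change Expr.eval ((instProg P).bound x.length) x A v b _ = _
        rw [instProg_bound]
        by_cases h : e.eval ((x.length + 2) ^ (P.c + 1 + 1)) x A v b < x.length
        · rw [eval_ite_pos, if_pos]
          · change (A (min (x.length * x.length + 1 + _) _)).toNat = _
            rw [min_eq_left]
            · rfl
            · omega
          · exact h
          · change _ + 1 ≤ x.length
            omega
        · rw [eval_ite_neg, if_neg]
          · rfl
          · exact h
          · change ¬ _ + 1 ≤ x.length
            omega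
      orc := fun v b _ e _ => rfl
      time := by
        rw [length_blk]
        exact time_succ P x.length }
  refine hOK.acc fun v b _ h3 => ?_
  change Expr.eval ((instProg P).bound x.length) x A v b _ ≠ 0 ↔ _
  rw [instProg_bound]
  have h4 : (Expr.orc (.mul .len .len)).eval ((x.length + 2) ^ (P.c + 1 + 1)) x A v b =
      (A (x.length * x.length)).toNat := by
    change (A (min (x.length * x.length) _)).toNat = _
    rw [min_eq_left (by omega)]
  cases hA : A (x.length * x.length) with
  | true =>
    rw [eval_ite_pos]
    · change v 3 ≠ 0 ↔ _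
      rw [h3]
      simp only [true_and]
      rfl
    · rw [h4, hA]
      exact le_rfl
  | false =>
    rw [eval_ite_neg]
    · simp [Expr.eval]
    · rw [h4, hA]
      change ¬ 1 ≤ 0
      omega

theorem inRL_inst (P : Prog) {Y N : Set (List Bool)} (hY : ∀ x ∈ Y, 1 / 2 ≤ P.prob empty x)
    (hN : ∀ x ∈ N, P.prob empty x = 0) {A : ℕ → Bool} (hA : A ∈ Good Y N) :
    InRL A (inst Y A) := by
  refine ⟨instProg P, fun x => ?_⟩
  by_cases hflag : A (x.length * x.length) = true
  · have h1 : (instProg P).prob A x = P.prob empty (blk x.length A) := by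
      refine prob_sim P _ empty A _ x 0 ?_ fun r => ?_
      · rw [length_blk, instProg_bound]
        have := time_succ P x.length
        omega
      · rw [instProg_acc]
        simp only [hflag, true_and, Nat.zero_add]
    rw [h1]
    refine ⟨fun hx => hY _ hx.2, fun hx => hN _ ?_⟩
    exact (hA x.length hflag).resolve_left fun h => hx ⟨hflag, h⟩
  · refine ⟨fun hx => absurd hx.1 hflag, fun _ => ?_⟩
    rw [prob_eq_zero_iff]
    intro r hr
    exact hflag ((instProg_acc P A x r).1 hr).1

/-- an instance planted in an oracle -/
def plant (A₀ : ℕ → Bool) (m : ℕ) (z : List Bool) (a : ℕ) : Bool :=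
  if a + 1 ≤ m then A₀ a
  else if a + 1 ≤ z.length * z.length then false
  else if a ≤ z.length * z.length then true
  else if a ≤ z.length * z.length + z.length then
    decide (inputAt z (a - (z.length * z.length + 1)) = 1)
  else false

theorem blk_plant (A₀ : ℕ → Bool) {s : ℕ} {z : List Bool} (hz : s ≤ z.length) :
    blk z.length (plant A₀ (s * s) z) = z := by
  refine List.ext_getElem (length_blk _ _) fun i h1 h2 => ?_
  have hm : s * s ≤ z.length * z.length := Nat.mul_le_mul hz hz
  have h3 : (blk z.length (plant A₀ (s * s) z))[i] =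
      plant A₀ (s * s) z (z.length * z.length + 1 + i) := by simp [blk]
  rw [h3]
  unfold plant
  rw [if_neg (by omega), if_neg (by omega), if_neg (by omega), if_pos (by omega),
    show z.length * z.length + 1 + i - (z.length * z.length + 1) = i by omega, inputAt_of_lt h2]
  cases z[i] <;> simp

theorem plant_flag (A₀ : ℕ → Bool) {s : ℕ} {z : List Bool} (hz : s ≤ z.length) :
    plant A₀ (s * s) z (z.length * z.length) = true := by
  have hm : s * s ≤ z.length * z.length := Nat.mul_le_mul hz hz
  unfold plant
  rw [if_neg (by omega), if_neg (by omega), if_pos le_rfl]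

theorem plant_good {Y N : Set (List Bool)} {A₀ : ℕ → Bool} (hA₀ : A₀ ∈ Good Y N) {s : ℕ}
    {z : List Bool} (hz : s ≤ z.length) (hzYN : z ∈ Y ∪ N) :
    plant A₀ (s * s) z ∈ Good Y N := by
  intro m hm
  by_cases hms : m < s
  · have h1 : (m + 1) * (m + 1) ≤ s * s := Nat.mul_le_mul hms hms
    have h2 : (m + 1) * (m + 1) = m * m + 2 * m + 1 := by ring
    have h3 : ∀ a, a ≤ m * m + m → plant A₀ (s * s) z a = A₀ a := by
      intro a ha
      unfold plant
      rw [if_pos (by omega)]
    rw [blk_congr (B := A₀) fun i hi => h3 _ (by omega)]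
    refine hA₀ m ?_
    rw [← h3 _ (by omega)]
    exact hm
  · have h1 : s * s ≤ m * m := Nat.mul_le_mul (by omega) (by omega)
    have h2 : m = z.length := by
      unfold plant at hm
      rw [if_neg (by omega)] at hm
      rcases lt_trichotomy m z.length with h | h | h
      · have h3 : (m + 1) * (m + 1) ≤ z.length * z.length := Nat.mul_le_mul h h
        have h4 : (m + 1) * (m + 1) = m * m + 2 * m + 1 := by ring
        rw [if_pos (by omega)] at hm
        exact absurd hm (by simp)
      · exact h
      · have h3 : (z.length + 1) * (z.length + 1) ≤ m * m := Nat.mul_le_mul h h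
        have h4 : (z.length + 1) * (z.length + 1) = z.length * z.length + 2 * z.length + 1 := by
          ring
        rw [if_neg (by omega), if_neg (by omega), if_neg (by omega)] at hm
        exact absurd hm (by simp)
    rw [h2, blk_plant A₀ hz]
    exact hzYN

/-- The program which runs `D` on the input `0 … 0` with the oracle in which the input is planted. -/
def plantProg (D : Prog) (A₀ : ℕ → Bool) (m : ℕ) : Prog :=
  simProg D 0 (fun _ => false) (D.c + 1) (.const 1) (.const 0) .len
    (fun e => .ite (.add e (.const 1)) .len (.const 0) (.const 2))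
    (fun e => .ite (.add e (.const 1)) (.const m) (tabO A₀ m e)
      (.ite (.add e (.const 1)) (.mul .len .len) (.const 0)
        (.ite e (.mul .len .len) (.const 1)
          (.ite e (.add (.mul .len .len) .len)
            (.mod (.inp (.sub e (.add (.mul .len .len) (.const 1)))) (.const 2)) (.const 0)))))

theorem plantProg_acc (D : Prog) (A₀ : ℕ → Bool) (m : ℕ) (z : List Bool) (A' : ℕ → Bool) :
    (plantProg D A₀ m).Acc A' z (fun _ => false) ↔
      D.Acc (plant A₀ m z) (List.replicate z.length false) fun _ => false := by
  refine simProg_acc 0 _ (Nat.zero_le _) (s := 0) ?_ _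
  refine
    { scan := no_scan'
      stop := no_scan
      len := fun v b _ => by rw [List.length_replicate]; rfl
      inp := fun v b _ e => ?_
      orc := fun v b _ e _ => ?_
      time := by rw [List.length_replicate]; exact time_succ D z.length }
  · by_cases h : e.eval ((z.length + 2) ^ (D.c + 1 + 1)) z A' v b < z.length
    · rw [eval_ite_pos, inputAt_of_lt (by rw [List.length_replicate]; exact h)]
      · simp [Expr.eval]
      · change _ + 1 ≤ z.length
        omega
    · rw [eval_ite_neg, inputAt_of_ge (by rw [List.length_replicate]; omega)]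
      · rfl
      · change ¬ _ + 1 ≤ z.length
        omega
  · unfold plant
    by_cases h1 : e.eval ((z.length + 2) ^ (D.c + 1 + 1)) z A' v b + 1 ≤ m
    · rw [if_pos h1, eval_ite_pos (show (Expr.add e (.const 1)).eval _ z A' v b ≤
        (Expr.const m).eval _ z A' v b from h1), eval_tabO _ _ _ _ _ _ _ (by omega)]
    · rw [if_neg h1, eval_ite_neg (show ¬ (Expr.add e (.const 1)).eval _ z A' v b ≤
        (Expr.const m).eval _ z A' v b from h1)]
      by_cases h2 : e.eval ((z.length + 2) ^ (D.c + 1 + 1)) z A' v b + 1 ≤ z.length * z.length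
      · rw [if_pos h2, eval_ite_pos (show (Expr.add e (.const 1)).eval _ z A' v b ≤
          (Expr.mul .len .len).eval _ z A' v b from h2)]
        rfl
      · rw [if_neg h2, eval_ite_neg (show ¬ (Expr.add e (.const 1)).eval _ z A' v b ≤
          (Expr.mul .len .len).eval _ z A' v b from h2)]
        by_cases h3 : e.eval ((z.length + 2) ^ (D.c + 1 + 1)) z A' v b ≤ z.length * z.length
        · rw [if_pos h3, eval_ite_pos (show e.eval _ z A' v b ≤
            (Expr.mul .len .len).eval _ z A' v b from h3)]
          rfl
        · rw [if_neg h3, eval_ite_neg (show ¬ e.eval _ z A' v b ≤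
            (Expr.mul .len .len).eval _ z A' v b from h3)]
          by_cases h4 : e.eval ((z.length + 2) ^ (D.c + 1 + 1)) z A' v b ≤
              z.length * z.length + z.length
          · rw [if_pos h4, eval_ite_pos (show e.eval _ z A' v b ≤
              (Expr.add (.mul .len .len) .len).eval _ z A' v b from h4)]
            change inputAt z (_ - (z.length * z.length + 1)) % 2 = _
            have h5 : e.eval ((z.length + 2) ^ (D.c + 1 + 1)) z A' v b -
              (z.length * z.length + 1) < z.length := by omega
            rw [inputAt_of_lt h5]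
            cases z[e.eval ((z.length + 2) ^ (D.c + 1 + 1)) z A' v b -
              (z.length * z.length + 1)] <;> simp
          · rw [if_neg h4, eval_ite_neg (show ¬ e.eval _ z A' v b ≤
              (Expr.add (.mul .len .len) .len).eval _ z A' v b from h4)]
            rfl

theorem promise_of_same (h : ∀ A, Same A) (Y N : Set (List Bool)) (hRL : PromiseRL Y N) :
    PromiseL Y N := by
  obtain ⟨P, hY, hN⟩ := hRL
  have hYN : ∀ x ∈ Y, x ∉ N := by
    intro x hx hx'
    have h1 := hY x hx
    rw [hN x hx'] at h1
    norm_num at h1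
  have hclosed := isClosed_good Y N
  have : CompactSpace (Good Y N) := isCompact_iff_compactSpace.1 hclosed.isCompact
  have : Nonempty (Good Y N) := ⟨⟨empty, fun n hn => absurd hn (by simp [empty])⟩⟩
  let F : Prog → Set (Good Y N) := fun D => {A | ∀ x, x ∈ inst Y A.1 ↔ D.Acc A.1 x fun _ => false}
  have hF : ∀ D, IsClosed (F D) := by
    intro D
    have h1 : F D = (Subtype.val : Good Y N → (ℕ → Bool)) ⁻¹'
        {A : ℕ → Bool | ∀ x, x ∈ inst Y A ↔ D.Acc A x fun _ => false} := rfl
    rw [h1]
    refine IsClosed.preimage continuous_subtype_val ?_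
    rw [← isOpen_compl_iff]
    refine isOpen_of_cylinders fun A hA => ?_
    rw [mem_compl_iff, mem_ofPred_eq] at hA
    push Not at hA
    obtain ⟨x, hx⟩ := hA
    refine ⟨D.bound x.length + (x.length * x.length + x.length + 1) + 1, fun B hB hall => ?_⟩
    have h2 := D.acc_congr_oracle x (A := B) (A' := A) (fun a ha => hB a (by omega))
      (fun _ => false)
    have h3 : x ∈ inst Y B ↔ x ∈ inst Y A := by
      unfold inst
      rw [mem_ofPred_eq, mem_ofPred_eq, hB _ (by omega),
        blk_congr (B := A) fun i hi => hB _ (by omega)]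
    have h4 := hall x
    rw [h2, h3] at h4
    tauto
  have hU : ⋃ D, F D = univ := by
    rw [eq_univ_iff_forall]
    intro A
    rw [mem_iUnion]
    obtain ⟨D, hD⟩ := (h A.1 (inst Y A.1)).1 (inRL_inst P hY hN A.2)
    exact ⟨D, hD⟩
  obtain ⟨D, A₀, hA₀⟩ := nonempty_interior_of_iUnion_of_closed hF hU
  rw [mem_interior] at hA₀
  obtain ⟨U, hUF, hUo, hAU⟩ := hA₀
  obtain ⟨V, hV, rfl⟩ := isOpen_induced_iff.1 hUo
  obtain ⟨s, hs⟩ := exists_cylinder hV hAU
  have key : ∀ z : List Bool, s ≤ z.length → z ∈ Y ∪ N →
      (z ∈ Y ↔ (plantProg D A₀.1 (s * s)).Acc empty z fun _ => false) := by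
    intro z hz hzYN
    rw [plantProg_acc]
    have h1 : plant A₀.1 (s * s) z ∈ Good Y N := plant_good A₀.2 hz hzYN
    have h2 : plant A₀.1 (s * s) z ∈ V := by
      refine hs fun a ha => ?_
      have h3 : s * 1 ≤ s * s := Nat.mul_le_mul_left s (by omega)
      unfold plant
      rw [if_pos (by omega)]
    have h3 : List.replicate z.length false ∈ inst Y (plant A₀.1 (s * s) z) ↔
        D.Acc (plant A₀.1 (s * s) z) (List.replicate z.length false) fun _ => false :=
      hUF (show (⟨_, h1⟩ : Good Y N) ∈ Subtype.val ⁻¹' V from h2) (List.replicate z.length false)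
    rw [← h3]
    unfold inst
    rw [mem_ofPred_eq, List.length_replicate, blk_plant _ hz, plant_flag _ hz]
    simp
  refine promiseL_of_large (plantProg D A₀.1 (s * s)) Y N s hYN fun x hx => ⟨fun hxY => ?_,
    fun hxN hacc => ?_⟩
  · exact (key x hx (Or.inl hxY)).1 hxY
  · exact hYN x ((key x hx (Or.inr hxN)).2 hacc) hxN

theorem promise_iff : (∀ Y N, PromiseRL Y N → PromiseL Y N) ↔ ∀ A, Same A :=
  ⟨same_of_promise, promise_of_same⟩

end Pool.Agent.L0h58.RL
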