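import Pool.Agent.L0h58.RL.Defs
import Mathlib.Tactic.Ring
import Mathlib.Tactic.Linarith
import Mathlib.Tactic.Positivity
import Mathlib.Tactic.FieldSimp
import Mathlib.Data.Fintype.BigOperators
import Mathlib.Data.Fintype.Sum

/-!
# Basic facts about programs
-/

set_option autoImplicit false

namespace Pool.Agent.L0h58.RL

theorem Prog.bound_ge (P : Prog) (n : ℕ) : n + 2 ≤ P.bound n := by
  unfold Prog.bound
  calc n + 2 = (n + 2) ^ 1 := (pow_one _).symm
    _ ≤ (n + 2) ^ (P.c + 1) := Nat.pow_le_pow_right (by omega) (by omega)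

theorem Prog.step_le (P : Prog) (A : ℕ → Bool) (x : List Bool) (v : ℕ → ℕ) (b : Bool) (i : ℕ) :
    P.step A x v b i ≤ P.bound x.length := by
  unfold Prog.step
  split
  · exact Nat.zero_le _
  · exact min_le_right _ _

theorem Prog.run_le (P : Prog) (A : ℕ → Bool) (x : List Bool) (r : ℕ → Bool) (t i : ℕ) :
    P.run A x r t i ≤ P.bound x.length := by
  cases t with
  | zero => exact Nat.zero_le _
  | succ t => exact P.step_le A x _ _ i

theorem Expr.eval_congr {W : ℕ} (x : List Bool) {A A' : ℕ → Bool} (h : ∀ a ≤ W, A a = A' a)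
    (v : ℕ → ℕ) (b : Bool) (e : Expr) : e.eval W x A v b = e.eval W x A' v b := by
  induction e with
  | const a => rfl
  | reg i => rfl
  | len => rfl
  | coin => rfl
  | add e f he hf => simp only [Expr.eval, he, hf]
  | sub e f he hf => simp only [Expr.eval, he, hf]
  | mul e f he hf => simp only [Expr.eval, he, hf]
  | div e f he hf => simp only [Expr.eval, he, hf]
  | mod e f he hf => simp only [Expr.eval, he, hf]
  | ite e f g k he hf hg hk => simp only [Expr.eval, he, hf, hg, hk]
  | inp e he => simp only [Expr.eval, he]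
  | orc e he => simp only [Expr.eval, he]; rw [h _ (min_le_right _ _)]

theorem Prog.step_congr (P : Prog) (x : List Bool) {A A' : ℕ → Bool}
    (h : ∀ a ≤ P.bound x.length, A a = A' a) (v : ℕ → ℕ) (b : Bool) :
    P.step A x v b = P.step A' x v b := by
  funext i
  unfold Prog.step
  split
  · rfl
  · rw [Expr.eval_congr x h]

theorem Prog.run_congr (P : Prog) (x : List Bool) {A A' : ℕ → Bool}
    (h : ∀ a ≤ P.bound x.length, A a = A' a) {r r' : ℕ → Bool} {t : ℕ}
    (hr : ∀ i < t, r i = r' i) : P.run A x r t = P.run A' x r' t := by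
  induction t with
  | zero => rfl
  | succ t ih =>
    change P.step A x (P.run A x r t) (r t) = P.step A' x (P.run A' x r' t) (r' t)
    rw [ih (fun i hi => hr i (by omega)), hr t (by omega), P.step_congr x h]

theorem Prog.acc_congr (P : Prog) (x : List Bool) {A A' : ℕ → Bool}
    (h : ∀ a ≤ P.bound x.length, A a = A' a) {r r' : ℕ → Bool}
    (hr : ∀ i < P.bound x.length, r i = r' i) : P.Acc A x r ↔ P.Acc A' x r' := by
  unfold Prog.Acc
  rw [P.run_congr x h hr]

theorem Prog.acc_congr_oracle (P : Prog) (x : List Bool) {A A' : ℕ → Bool}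
    (h : ∀ a ≤ P.bound x.length, A a = A' a) (r : ℕ → Bool) : P.Acc A x r ↔ P.Acc A' x r :=
  P.acc_congr x h fun _ _ => rfl

instance : Countable Prog := by
  have : Function.Injective (fun P : Prog => (P.code, P.c)) := by
    rintro ⟨a, b⟩ ⟨c, d⟩ h
    simp only [Prod.mk.injEq] at h
    rw [h.1, h.2]
  exact this.countable

/-! ### Counting sequences of random bits -/

open Classical in
/-- the number of accepting sequences -/
noncomputable def cnt {T : ℕ} (p : (Fin T → Bool) → Prop) : ℕ := Fintype.card {r // p r}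

theorem cnt_congr {T : ℕ} {p q : (Fin T → Bool) → Prop} (h : ∀ r, p r ↔ q r) : cnt p = cnt q := by
  have : p = q := funext fun r => propext (h r)
  rw [this]

/-- the number of accepting sequences of random bits -/
noncomputable def accs (P : Prog) (A : ℕ → Bool) (x : List Bool) : ℕ :=
  cnt fun r : Fin (P.bound x.length) → Bool => P.Acc A x (ext r)

theorem prob_eq (P : Prog) (A : ℕ → Bool) (x : List Bool) :
    P.prob A x = (accs P A x : ℝ) / 2 ^ P.bound x.length := rfl

theorem half_le_iff (P : Prog) (A : ℕ → Bool) (x : List Bool) :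
    1 / 2 ≤ P.prob A x ↔ 2 ^ P.bound x.length ≤ 2 * accs P A x := by
  rw [prob_eq, le_div_iff₀ (by positivity)]
  constructor
  · intro h
    have : ((2 ^ P.bound x.length : ℕ) : ℝ) ≤ ((2 * accs P A x : ℕ) : ℝ) := by
      push_cast
      linarith
    exact_mod_cast this
  · intro h
    have : ((2 ^ P.bound x.length : ℕ) : ℝ) ≤ ((2 * accs P A x : ℕ) : ℝ) := by
      exact_mod_cast h
    push_cast at this
    linarith

theorem cnt_eq_zero {T : ℕ} (p : (Fin T → Bool) → Prop) : cnt p = 0 ↔ ∀ r, ¬ p r := by
  classical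
  unfold cnt
  rw [Fintype.card_eq_zero_iff]
  constructor
  · intro h r hr
    exact h.elim ⟨r, hr⟩
  · intro h
    exact ⟨fun r => h r.1 r.2⟩

theorem ext_restrict {T : ℕ} (r : ℕ → Bool) : ∀ i < T, ext (fun j : Fin T => r j) i = r i := by
  intro i hi
  unfold ext
  rw [dif_pos hi]

theorem prob_eq_zero_iff (P : Prog) (A : ℕ → Bool) (x : List Bool) :
    P.prob A x = 0 ↔ ∀ r, ¬ P.Acc A x r := by
  rw [prob_eq, div_eq_zero_iff]
  have h2 : (2 : ℝ) ^ P.bound x.length ≠ 0 := by positivity
  constructor
  · rintro (h | h)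
    · have h1 : accs P A x = 0 := by exact_mod_cast h
      unfold accs at h1
      rw [cnt_eq_zero] at h1
      intro r hr
      refine h1 (fun j => r j) ?_
      exact (P.acc_congr x (fun _ _ => rfl) fun i hi => (ext_restrict r i hi)).2 hr
    · exact absurd h h2
  · intro h
    left
    have h1 : accs P A x = 0 := (cnt_eq_zero _).2 fun r => h _
    exact_mod_cast h1

theorem accs_congr' (P : Prog) (x : List Bool) {A A' : ℕ → Bool}
    (h : ∀ a ≤ P.bound x.length, A a = A' a) : accs P A x = accs P A' x :=
  cnt_congr fun _ => P.acc_congr_oracle x h _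

theorem prob_congr (P : Prog) (x : List Bool) {A A' : ℕ → Bool}
    (h : ∀ a ≤ P.bound x.length, A a = A' a) : P.prob A x = P.prob A' x := by
  rw [prob_eq, prob_eq, accs_congr' P x h]

theorem cnt_le {T : ℕ} (p : (Fin T → Bool) → Prop) : cnt p ≤ 2 ^ T := by
  classical
  unfold cnt
  have h := Fintype.card_subtype_le p
  rw [Fintype.card_fun, Fintype.card_bool, Fintype.card_fin] at h
  convert h

/-- Unused random bits do not matter. -/
theorem cnt_comp {T T' : ℕ} (e : Fin T → Fin T') (he : Function.Injective e)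
    (p : (Fin T → Bool) → Prop) :
    (cnt fun r' : Fin T' → Bool => p (r' ∘ e)) * 2 ^ T = cnt p * 2 ^ T' := by
  classical
  unfold cnt
  have hE : (Fin T ⊕ {j : Fin T' // j ∉ Set.range e}) ≃ Fin T' :=
    (Equiv.sumCongr (Equiv.ofInjective e he) (Equiv.refl _)).trans
      (Equiv.Set.sumCompl (Set.range e))
  let E : (Fin T ⊕ {j : Fin T' // j ∉ Set.range e}) ≃ Fin T' :=
    (Equiv.sumCongr (Equiv.ofInjective e he) (Equiv.refl _)).trans
      (Equiv.Set.sumCompl (Set.range e))
  have hEl : ∀ i, E (Sum.inl i) = e i := fun i => rfl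
  let F : (Fin T' → Bool) ≃ (Fin T → Bool) × ({j : Fin T' // j ∉ Set.range e} → Bool) :=
    (Equiv.arrowCongr E.symm (Equiv.refl Bool)).trans (Equiv.sumArrowEquivProdArrow _ _ _)
  have hF : ∀ r', (F r').1 = r' ∘ e := by
    intro r'
    funext i
    change r' (E (Sum.inl i)) = _
    rw [hEl]
    rfl
  have h1 : Fintype.card {r' : Fin T' → Bool // p (r' ∘ e)} =
      Fintype.card {r : Fin T → Bool // p r} *
        Fintype.card ({j : Fin T' // j ∉ Set.range e} → Bool) := by
    rw [← Fintype.card_prod]
    refine Fintype.card_congr ?_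
    refine (F.subtypeEquiv (q := fun z => p z.1) (fun r' => by rw [hF])).trans ?_
    exact {
      toFun := fun z => (⟨z.1.1, z.2⟩, z.1.2)
      invFun := fun z => ⟨(z.1.1, z.2), z.1.2⟩
      left_inv := fun _ => rfl
      right_inv := fun _ => rfl }
  have h2 : Fintype.card (Fin T' → Bool) = Fintype.card (Fin T → Bool) *
      Fintype.card ({j : Fin T' // j ∉ Set.range e} → Bool) := by
    rw [← Fintype.card_prod]
    exact Fintype.card_congr F
  have h3 : Fintype.card (Fin T' → Bool) = 2 ^ T' := by
    rw [Fintype.card_fun, Fintype.card_bool, Fintype.card_fin]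
  have h4 : Fintype.card (Fin T → Bool) = 2 ^ T := by
    rw [Fintype.card_fun, Fintype.card_bool, Fintype.card_fin]
  rw [h3, h4] at h2
  have h5 : (Fintype.card {r' : Fin T' → Bool // p (r' ∘ e)}) * 2 ^ T =
      Fintype.card {r : Fin T → Bool // p r} * 2 ^ T' := by
    rw [h1, h2]
    ring
  convert h5

/-- A program which simulates `P` with a shift of the random bits accepts with the same
probability. -/
theorem prob_sim (P Q : Prog) (A A' : ℕ → Bool) (x x' : List Bool) (s : ℕ)
    (hs : s + P.bound x.length ≤ Q.bound x'.length)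
    (h : ∀ r : ℕ → Bool, Q.Acc A' x' r ↔ P.Acc A x fun t => r (s + t)) :
    Q.prob A' x' = P.prob A x := by
  rw [prob_eq, prob_eq, div_eq_div_iff (by positivity) (by positivity)]
  let e : Fin (P.bound x.length) → Fin (Q.bound x'.length) := fun i => ⟨s + i, by omega⟩
  have he : Function.Injective e := by
    intro i j hij
    have := congrArg Fin.val hij
    change s + (i : ℕ) = s + j at this
    exact Fin.ext (by omega)
  have h1 := cnt_comp e he (fun r => P.Acc A x (ext r))
  have h2 : accs Q A' x' =
      cnt fun r' : Fin (Q.bound x'.length) → Bool => P.Acc A x (ext (r' ∘ e)) := by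
    refine cnt_congr fun r' => ?_
    rw [h]
    refine P.acc_congr x (fun _ _ => rfl) fun i hi => ?_
    unfold ext
    rw [dif_pos (by omega : s + i < _), dif_pos hi]
    rfl
  rw [h2]
  exact_mod_cast h1

end Pool.Agent.L0h58.RL
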