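import Mathlib.Data.Real.Basic
import Mathlib.Data.Fintype.Pi
import Mathlib.Data.Fintype.Card
import Mathlib.Data.Set.Countable
import Mathlib.Logic.Encodable.Pi
import Mathlib.Tactic.DeriveCountable

/-!
# Logarithmic space, deterministic and randomized, with oracles for logarithmic queries

A program works with finitely many registers, which contain natural numbers with `O (log n)` bits,
`n` the length of the input. In every step all registers are replaced by new values, which are
given by expressions (`Expr`) in the old ones. An expression may use the arithmetical operations, a
case distinction, the length of the input, its bits, one random bit per step, and the oracle. The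
oracle is a set of natural numbers, and a query is a number with `O (log n)` bits. The number of
steps is a polynomial in the length of the input.
-/

set_option autoImplicit false

namespace Pool.Agent.L0h58.RL

/-- Expressions. -/
inductive Expr : Type
  /-- a constant -/
  | const (a : ℕ) : Expr
  /-- the contents of the register `i` -/
  | reg (i : ℕ) : Expr
  /-- the length of the input -/
  | len : Expr
  /-- the random bit of the present step -/
  | coin : Expr
  /-- a sum -/
  | add (e f : Expr) : Expr
  /-- a difference (`0` if it is negative) -/
  | sub (e f : Expr) : Expr
  /-- a product -/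
  | mul (e f : Expr) : Expr
  /-- an integer quotient -/
  | div (e f : Expr) : Expr
  /-- a remainder -/
  | mod (e f : Expr) : Expr
  /-- if `e ≤ f` then `g` else `h` -/
  | ite (e f g h : Expr) : Expr
  /-- a symbol of the input -/
  | inp (e : Expr) : Expr
  /-- the answer of the oracle to the query `e` -/
  | orc (e : Expr) : Expr
  deriving Countable

/-- The symbol of the input `x` at the place `i = 0, 1, 2, …`: the bit `0` or `1`, and `2` behind
the end of the input. -/
def inputAt (x : List Bool) (i : ℕ) : ℕ :=
  match x[i]? with
  | none => 2
  | some b => b.toNat

/-- The value of an expression for the input `x`, the oracle `A`, the registers `v` and the random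
bit `b`. Queries to the oracle are numbers of size at most `W` (larger numbers are replaced by
`W`). -/
def Expr.eval (W : ℕ) (x : List Bool) (A : ℕ → Bool) (v : ℕ → ℕ) (b : Bool) : Expr → ℕ
  | .const a => a
  | .reg i => v i
  | .len => x.length
  | .coin => b.toNat
  | .add e f => e.eval W x A v b + f.eval W x A v b
  | .sub e f => e.eval W x A v b - f.eval W x A v b
  | .mul e f => e.eval W x A v b * f.eval W x A v b
  | .div e f => e.eval W x A v b / f.eval W x A v b
  | .mod e f => e.eval W x A v b % f.eval W x A v b
  | .ite e f g h => if e.eval W x A v b ≤ f.eval W x A v b then g.eval W x A v b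
      else h.eval W x A v b
  | .inp e => inputAt x (e.eval W x A v b)
  | .orc e => (A (min (e.eval W x A v b) W)).toNat

/-- A program: the expression `i` in the list `code` gives the new contents of the register `i`;
the number of steps and the size of the contents of the registers are bounded by
`(n + 2) ^ (c + 1)`, `n` the length of the input. -/
structure Prog : Type where
  /-- the expressions for the new contents of the registers -/
  code : List Expr
  /-- the exponent of the bound -/
  c : ℕ

/-- The number of steps for inputs of length `n`, which is also the bound for the numbers in the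
registers and for the queries. -/
def Prog.bound (P : Prog) (n : ℕ) : ℕ := (n + 2) ^ (P.c + 1)

/-- One step. Numbers larger than the bound are replaced by the bound. -/
def Prog.step (P : Prog) (A : ℕ → Bool) (x : List Bool) (v : ℕ → ℕ) (b : Bool) : ℕ → ℕ := fun i =>
  match P.code[i]? with
  | none => 0
  | some e => min (e.eval (P.bound x.length) x A v b) (P.bound x.length)

/-- The contents of the registers after `t` steps for the random bits `r 0, r 1, …`. -/
def Prog.run (P : Prog) (A : ℕ → Bool) (x : List Bool) (r : ℕ → Bool) : ℕ → ℕ → ℕ
  | 0 => fun _ => 0
  | t + 1 => P.step A x (P.run A x r t) (r t)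

/-- The program accepts if the register `0` is not zero at the end. -/
def Prog.Acc (P : Prog) (A : ℕ → Bool) (x : List Bool) (r : ℕ → Bool) : Prop :=
  P.run A x r (P.bound x.length) 0 ≠ 0

/-- The sequence of random bits which starts with `r` (the other ones are not used). -/
def ext {T : ℕ} (r : Fin T → Bool) : ℕ → Bool := fun t => if h : t < T then r ⟨t, h⟩ else false

open Classical in
/-- The probability that the program accepts, for independent fair random bits. -/
noncomputable def Prog.prob (P : Prog) (A : ℕ → Bool) (x : List Bool) : ℝ :=
  (Fintype.card {r : Fin (P.bound x.length) → Bool // P.Acc A x (ext r)} : ℝ) /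
    2 ^ P.bound x.length

/-- Deterministic logarithmic space relative to the oracle `A` (the random bits are `0`). -/
def InL (A : ℕ → Bool) (S : Set (List Bool)) : Prop :=
  ∃ P : Prog, ∀ x, x ∈ S ↔ P.Acc A x fun _ => false

/-- Randomized logarithmic space (one-sided error) relative to the oracle `A`. -/
def InRL (A : ℕ → Bool) (S : Set (List Bool)) : Prop :=
  ∃ P : Prog, ∀ x, (x ∈ S → 1 / 2 ≤ P.prob A x) ∧ (x ∉ S → P.prob A x = 0)

/-- `RL = L` relative to the oracle `A`. -/
def Same (A : ℕ → Bool) : Prop := ∀ S, InRL A S ↔ InL A S

/-- The empty oracle. -/
def empty : ℕ → Bool := fun _ => false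

/-- The promise problem with the yes-instances `Y` and the no-instances `N` is solvable in
randomized logarithmic space with one-sided error. -/
def PromiseRL (Y N : Set (List Bool)) : Prop :=
  ∃ P : Prog, (∀ x ∈ Y, 1 / 2 ≤ P.prob empty x) ∧ ∀ x ∈ N, P.prob empty x = 0

/-- The promise problem with the yes-instances `Y` and the no-instances `N` is solvable in
deterministic logarithmic space. -/
def PromiseL (Y N : Set (List Bool)) : Prop :=
  ∃ P : Prog, (∀ x ∈ Y, P.Acc empty x fun _ => false) ∧ ∀ x ∈ N, ¬ P.Acc empty x fun _ => false

end Pool.Agent.L0h58.RL
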