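import Pool.Agent.L0h58.RL.Trial
import Mathlib.Probability.Independence.InfinitePi
import Mathlib.MeasureTheory.Measure.Real
import Mathlib.Analysis.SpecialFunctions.Exp

/-!
# Product measures: independence of events which depend on disjoint intervals of coordinates
-/

set_option autoImplicit false

namespace Pool.Agent.L0h58.RL

open MeasureTheory ProbabilityTheory Set

/-- The event depends only on the coordinates in `[N, M)`. -/
def Dep (N M : ℕ) (E : Set (ℕ → Bool)) : Prop :=
  ∀ A A' : ℕ → Bool, (∀ i, N ≤ i → i < M → A i = A' i) → (A ∈ E ↔ A' ∈ E)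

theorem Dep.mono {N M N' M' : ℕ} {E : Set (ℕ → Bool)} (h : Dep N M E) (h1 : N' ≤ N) (h2 : M ≤ M') :
    Dep N' M' E := fun A A' hA => h A A' fun i hi hi' => hA i (by omega) (by omega)

theorem Dep.compl {N M : ℕ} {E : Set (ℕ → Bool)} (h : Dep N M E) : Dep N M Eᶜ := by
  intro A A' hA
  rw [mem_compl_iff, mem_compl_iff, h A A' hA]

theorem Dep.inter {N M : ℕ} {E F : Set (ℕ → Bool)} (h : Dep N M E) (h' : Dep N M F) :
    Dep N M (E ∩ F) := by
  intro A A' hA
  rw [mem_inter_iff, mem_inter_iff, h A A' hA, h' A A' hA]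

/-- the coordinates in `[N, M)` -/
def res (N M : ℕ) (A : ℕ → Bool) : {i // i ∈ Finset.Ico N M} → Bool := fun i => A i

theorem Dep.eq_preimage {N M : ℕ} {E : Set (ℕ → Bool)} (h : Dep N M E) :
    E = res N M ⁻¹' (res N M '' E) := by
  ext A
  constructor
  · exact fun hA => ⟨A, hA, rfl⟩
  · rintro ⟨A', hA', he⟩
    refine (h A A' fun i hi hi' => ?_).2 hA'
    have := congrFun he ⟨i, Finset.mem_Ico.2 ⟨hi, hi'⟩⟩
    exact this.symm

theorem measurable_res (N M : ℕ) : Measurable (res N M) := by
  unfold res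
  fun_prop

theorem Dep.measurable {N M : ℕ} {E : Set (ℕ → Bool)} (h : Dep N M E) : MeasurableSet E := by
  rw [h.eq_preimage]
  exact measurable_res N M (Set.toFinite _).measurableSet

variable (ν : ℕ → Measure Bool) [∀ j, IsProbabilityMeasure (ν j)]

/-- the probability of an event -/
noncomputable def pr (E : Set (ℕ → Bool)) : ℝ := (Measure.infinitePi ν).real E

theorem pr_inter {N M K : ℕ} {E F : Set (ℕ → Bool)} (hE : Dep N M E) (hF : Dep M K F) :
    pr ν (E ∩ F) = pr ν E * pr ν F := by
  have h1 : iIndepFun (fun (i : ℕ) (A : ℕ → Bool) => A i) (Measure.infinitePi ν) :=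
    iIndepFun_infinitePi (X := fun _ b => b) fun _ => measurable_id
  have h2 : Disjoint (Finset.Ico N M) (Finset.Ico M K) := by
    rw [Finset.disjoint_left]
    intro i hi hi'
    rw [Finset.mem_Ico] at hi hi'
    omega
  have h3 := (h1.indepFun_finset (Finset.Ico N M) (Finset.Ico M K) h2
    fun i => measurable_pi_apply i).measure_inter_preimage_eq_mul (res N M '' E) (res M K '' F)
    (Set.toFinite _).measurableSet (Set.toFinite _).measurableSet
  unfold pr Measure.real
  rw [← ENNReal.toReal_mul]
  congr 1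
  calc Measure.infinitePi ν (E ∩ F)
      = Measure.infinitePi ν (res N M ⁻¹' (res N M '' E) ∩ res M K ⁻¹' (res M K '' F)) := by
        rw [← hE.eq_preimage, ← hF.eq_preimage]
    _ = _ := h3
    _ = Measure.infinitePi ν E * Measure.infinitePi ν F := by
        conv_rhs => rw [hE.eq_preimage, hF.eq_preimage]
        rfl

theorem pr_coord (i : ℕ) (b : Bool) : pr ν {A | A i = b} = (ν i).real {b} := by
  unfold pr Measure.real
  congr 1
  have h1 := Measure.infinitePi_map_eval ν i
  rw [← h1, Measure.map_apply (measurable_pi_apply i) (measurableSet_singleton b)]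
  rfl

theorem pr_univ : pr ν univ = 1 := by
  unfold pr
  exact probReal_univ

theorem pr_compl {N M : ℕ} {E : Set (ℕ → Bool)} (hE : Dep N M E) : pr ν Eᶜ = 1 - pr ν E := by
  unfold pr
  exact probReal_compl_eq_one_sub hE.measurable

theorem pr_mono {E F : Set (ℕ → Bool)} (h : E ⊆ F) : pr ν E ≤ pr ν F := measureReal_mono h

omit [∀ j, IsProbabilityMeasure (ν j)] in
theorem pr_nonneg (E : Set (ℕ → Bool)) : 0 ≤ pr ν E := measureReal_nonneg

theorem pr_union {N M : ℕ} {E F : Set (ℕ → Bool)} (hF : Dep N M F) (h : Disjoint E F) :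
    pr ν (E ∪ F) = pr ν E + pr ν F := by
  unfold pr
  exact measureReal_union h hF.measurable

/-! ### Parities -/

theorem par_congr {A A' : ℕ → Bool} {a u : ℕ} (h : ∀ i, a ≤ i → i < a + u → A i = A' i) :
    par A a u = par A' a u := by
  induction u with
  | zero => rfl
  | succ u ih =>
    unfold par
    rw [ih fun i hi hi' => h i hi (by omega), h (a + u) (by omega) (by omega)]

theorem dep_par (a u : ℕ) (b : Bool) : Dep a (a + u) {A | par A a u = b} := by
  intro A A' h
  rw [mem_ofPred_eq, mem_ofPred_eq, par_congr h]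

theorem dep_coord (i : ℕ) (b : Bool) : Dep i (i + 1) {A : ℕ → Bool | A i = b} := by
  intro A A' h
  rw [mem_ofPred_eq, mem_ofPred_eq, h i le_rfl (by omega)]

theorem abs_pr_par {δ : ℝ} {a : ℕ} : ∀ u : ℕ,
    (∀ i, a ≤ i → i < a + u → ∀ b, δ ≤ (ν i).real {b}) →
    |pr ν {A | par A a u = true} - 1 / 2| ≤ (1 - 2 * δ) ^ u / 2 := by
  intro u
  induction u with
  | zero =>
    intro _
    have h1 : {A : ℕ → Bool | par A a 0 = true} = ∅ := by
      ext A
      simp [par]
    rw [h1]
    unfold pr
    rw [measureReal_empty]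
    norm_num
  | succ u ih =>
    intro hδ
    have ih' := ih fun i hi hi' => hδ i hi (by omega)
    have hd := hδ (a + u) (by omega) (by omega)
    obtain ⟨p, hp⟩ : ∃ p, p = pr ν {A | par A a u = true} := ⟨_, rfl⟩
    obtain ⟨t, ht⟩ : ∃ t, t = (ν (a + u)).real {true} := ⟨_, rfl⟩
    have hset : {A : ℕ → Bool | par A a (u + 1) = true} =
        ({A | par A a u = true} ∩ {A | A (a + u) = false}) ∪
        ({A | par A a u = false} ∩ {A | A (a + u) = true}) := by
      ext A
      simp only [mem_ofPred_eq, mem_union, mem_inter_iff, par]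
      cases par A a u <;> cases A (a + u) <;> simp
    have hdisj : Disjoint ({A : ℕ → Bool | par A a u = true} ∩ {A | A (a + u) = false})
        ({A | par A a u = false} ∩ {A | A (a + u) = true}) := by
      rw [Set.disjoint_left]
      rintro A ⟨h1, -⟩ ⟨h2, -⟩
      rw [mem_ofPred_eq] at h1 h2
      rw [h1] at h2
      exact absurd h2 (by simp)
    have hdep : Dep a (a + u + 1) ({A : ℕ → Bool | par A a u = false} ∩ {A | A (a + u) = true}) :=
      ((dep_par a u false).mono le_rfl (by omega)).inter
        ((dep_coord (a + u) true).mono (by omega) le_rfl)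
    have hfalse : pr ν {A : ℕ → Bool | par A a u = false} = 1 - p := by
      rw [hp, ← pr_compl ν (dep_par a u true)]
      congr 1
      ext A
      simp
    have htf : (ν (a + u)).real {false} = 1 - t := by
      rw [ht, ← probReal_compl_eq_one_sub (measurableSet_singleton true)]
      congr 1
      ext b
      cases b <;> simp
    have hval : pr ν {A : ℕ → Bool | par A a (u + 1) = true} = p * (1 - t) + (1 - p) * t := by
      rw [hset, pr_union ν hdep hdisj, pr_inter ν (dep_par a u true) (dep_coord (a + u) false),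
        pr_inter ν (dep_par a u false) (dep_coord (a + u) true), pr_coord, pr_coord, hfalse, htf,
        ← hp, ← ht]
    rw [hval]
    have h1 : p * (1 - t) + (1 - p) * t - 1 / 2 = (p - 1 / 2) * (1 - 2 * t) := by ring
    rw [h1, abs_mul, pow_succ]
    have h2 : |1 - 2 * t| ≤ 1 - 2 * δ := by
      have h3 := hd true
      have h4 := hd false
      rw [← ht] at h3
      rw [htf] at h4
      rw [abs_le]
      constructor <;> linarith
    have h3 : 0 ≤ |1 - 2 * t| := abs_nonneg _
    have h4 : 0 ≤ |p - 1 / 2| := abs_nonneg _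
    rw [← hp] at ih'
    calc |p - 1 / 2| * |1 - 2 * t| ≤ ((1 - 2 * δ) ^ u / 2) * (1 - 2 * δ) :=
          mul_le_mul ih' h2 h3 (h4.trans ih')
      _ = (1 - 2 * δ) ^ u * (1 - 2 * δ) / 2 := by ring

theorem pr_par_ge {δ : ℝ} {a u : ℕ} (h : ∀ i, a ≤ i → i < a + u → ∀ b, δ ≤ (ν i).real {b})
    (b : Bool) : (1 - (1 - 2 * δ) ^ u) / 2 ≤ pr ν {A | par A a u = b} := by
  have h1 := abs_le.1 (abs_pr_par ν u h)
  cases b with
  | true => linarith [h1.1]
  | false =>
    have h2 : pr ν {A : ℕ → Bool | par A a u = false} = 1 - pr ν {A | par A a u = true} := by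
      rw [← pr_compl ν (dep_par a u true)]
      congr 1
      ext A
      simp
    rw [h2]
    linarith [h1.2]

/-! ### Strings of parities -/

theorem dep_coins (m a S : ℕ) (ω : ℕ → Bool) :
    Dep a (a + S * m) {A | ∀ s < S, coins A m a s = ω s} := by
  intro A A' h
  have h1 : ∀ s < S, coins A m a s = coins A' m a s := by
    intro s hs
    unfold coins
    refine par_congr fun i hi hi' => h i (by nlinarith) ?_
    have : (s + 1) * m ≤ S * m := Nat.mul_le_mul_right m hs
    nlinarith
  constructor
  · intro hA s hs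
    rw [← h1 s hs]
    exact hA s hs
  · intro hA s hs
    rw [h1 s hs]
    exact hA s hs

theorem pr_coins_ge {δ : ℝ} {m a : ℕ} (ω : ℕ → Bool) : ∀ S : ℕ,
    (∀ i, a ≤ i → i < a + S * m → ∀ b, δ ≤ (ν i).real {b}) → 0 ≤ (1 - (1 - 2 * δ) ^ m) / 2 →
    ((1 - (1 - 2 * δ) ^ m) / 2) ^ S ≤ pr ν {A | ∀ s < S, coins A m a s = ω s} := by
  intro S
  induction S with
  | zero =>
    intro _ _
    have h1 : {A : ℕ → Bool | ∀ s < 0, coins A m a s = ω s} = univ := by
      ext A
      simp
    rw [h1, pr_univ, pow_zero]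
  | succ S ih =>
    intro hδ hnn
    have e1 : a + (S + 1) * m = a + S * m + m := by ring
    have ih' := ih (fun i hi hi' => hδ i hi (by omega)) hnn
    have h1 : {A : ℕ → Bool | ∀ s < S + 1, coins A m a s = ω s} =
        {A | ∀ s < S, coins A m a s = ω s} ∩ {A | par A (a + S * m) m = ω S} := by
      ext A
      simp only [mem_ofPred_eq, mem_inter_iff]
      constructor
      · exact fun h => ⟨fun s hs => h s (by omega), h S (by omega)⟩
      · rintro ⟨h1, h2⟩ s hs
        rcases Nat.lt_succ_iff_lt_or_eq.1 hs with h | h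
        · exact h1 s h
        · rw [h]
          exact h2
    rw [h1, pr_inter ν (dep_coins m a S ω) (dep_par (a + S * m) m (ω S)), pow_succ]
    exact mul_le_mul ih' (pr_par_ge ν (fun i hi hi' => hδ i (by omega) (by omega)) _) hnn
      (pr_nonneg ν _)

end Pool.Agent.L0h58.RL
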