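import Pool.Agent.L0h58.RL.Indep

/-!
# The probability that all trials fail
-/

set_option autoImplicit false

namespace Pool.Agent.L0h58.RL

open MeasureTheory ProbabilityTheory Set

variable (ν : ℕ → Measure Bool) [∀ j, IsProbabilityMeasure (ν j)]

theorem acc_ext (P : Prog) (A₀ : ℕ → Bool) (x : List Bool) (g : ℕ → Bool) :
    P.Acc A₀ x g ↔ P.Acc A₀ x (ext fun j : Fin (P.bound x.length) => g j) :=
  P.acc_congr x (fun _ _ => rfl) fun i hi => (ext_restrict g i hi).symm

theorem dep_acc (P : Prog) (A₀ : ℕ → Bool) (x : List Bool) (m a : ℕ) :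
    Dep a (a + P.bound x.length * m) {A | P.Acc A₀ x (coins A m a)} := by
  intro A A' h
  rw [mem_ofPred_eq, mem_ofPred_eq]
  refine P.acc_congr x (fun _ _ => rfl) fun s hs => ?_
  unfold coins
  refine par_congr fun i hi hi' => h i (by nlinarith) ?_
  have : (s + 1) * m ≤ P.bound x.length * m := Nat.mul_le_mul_right m hs
  nlinarith

/-- A trial is successful with probability at least `1 / 4`. -/
theorem pr_acc_ge {P : Prog} {A₀ : ℕ → Bool} {x : List Bool} {m a : ℕ} {δ : ℝ}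
    (hP : 2 ^ P.bound x.length ≤ 2 * accs P A₀ x)
    (hδ : ∀ i, a ≤ i → i < a + P.bound x.length * m → ∀ b, δ ≤ (ν i).real {b})
    (h0 : 0 ≤ (1 - 2 * δ) ^ m) (h1 : (P.bound x.length : ℝ) * (1 - 2 * δ) ^ m ≤ 1 / 2) :
    1 / 4 ≤ pr ν {A | P.Acc A₀ x (coins A m a)} := by
  classical
  obtain ⟨T, hT⟩ : ∃ T, T = P.bound x.length := ⟨_, rfl⟩
  have hTpos : 1 ≤ T := by
    have := P.bound_ge x.length
    omega
  have hTpos' : (1 : ℝ) ≤ T := by exact_mod_cast hTpos
  rw [← hT] at h1 hδ hP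
  obtain ⟨β, hβ⟩ : ∃ β, β = (1 - 2 * δ) ^ m := ⟨_, rfl⟩
  rw [← hβ] at h0 h1
  have hβ1 : β ≤ 1 / 2 := by nlinarith
  let R : Finset (Fin T → Bool) := Finset.univ.filter fun ω => P.Acc A₀ x (ext ω)
  have hset : {A : ℕ → Bool | P.Acc A₀ x (coins A m a)} =
      ⋃ ω ∈ R, {A | ∀ s < T, coins A m a s = ext ω s} := by
    ext A
    simp only [mem_ofPred_eq, mem_iUnion, exists_prop]
    constructor
    · intro h
      refine ⟨fun j => coins A m a j, ?_, fun s hs => (ext_restrict _ s hs).symm⟩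
      refine Finset.mem_filter.2 ⟨Finset.mem_univ _, ?_⟩
      subst hT
      exact (acc_ext P A₀ x _).1 h
    · rintro ⟨ω, hω, hA⟩
      have h2 := (Finset.mem_filter.1 hω).2
      refine (P.acc_congr x (fun _ _ => rfl) fun i hi => ?_).1 h2
      exact (hA i (by omega)).symm
  have hcard : R.card = accs P A₀ x := by
    unfold accs cnt
    subst hT
    rw [Fintype.card_subtype]
  have hdisj : PairwiseDisjoint (↑R : Set (Fin T → Bool))
      fun ω => {A : ℕ → Bool | ∀ s < T, coins A m a s = ext ω s} := by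
    intro ω _ ω' _ hne
    rw [Function.onFun, Set.disjoint_left]
    intro A h2 h3
    refine hne (funext fun j => ?_)
    have h4 := h2 j j.2
    rw [h3 j j.2] at h4
    unfold ext at h4
    rw [dif_pos j.2, dif_pos j.2] at h4
    exact h4.symm
  have hsum : pr ν {A | P.Acc A₀ x (coins A m a)} =
      ∑ ω ∈ R, pr ν {A | ∀ s < T, coins A m a s = ext ω s} := by
    rw [hset]
    unfold pr
    exact measureReal_biUnion_finset hdisj fun ω _ => (dep_coins m a T (ext ω)).measurable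
  rw [hsum]
  have hlam : 0 ≤ (1 - (1 - 2 * δ) ^ m) / 2 := by
    rw [← hβ]
    linarith
  have h5 : (R.card : ℝ) * ((1 - β) / 2) ^ T ≤
      ∑ ω ∈ R, pr ν {A | ∀ s < T, coins A m a s = ext ω s} := by
    rw [← nsmul_eq_mul]
    refine Finset.card_nsmul_le_sum _ _ _ fun ω _ => ?_
    rw [hβ]
    exact pr_coins_ge ν (ext ω) T hδ hlam
  refine le_trans ?_ h5
  rw [hcard, div_pow]
  have h6 : (2 : ℝ) ^ T ≤ 2 * accs P A₀ x := by exact_mod_cast hP
  have h7 : 1 - T * β ≤ (1 - β) ^ T := by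
    have := one_add_mul_le_pow (show (-2 : ℝ) ≤ -β by linarith) T
    have e : (1 : ℝ) + -β = 1 - β := by ring
    rw [e] at this
    linarith
  have h8 : (1 : ℝ) / 2 ≤ (1 - β) ^ T := by linarith
  have h9 : (0 : ℝ) < 2 ^ T := by positivity
  have h10 : (accs P A₀ x : ℝ) * ((1 - β) ^ T / 2 ^ T) = (accs P A₀ x / 2 ^ T) * (1 - β) ^ T := by
    ring
  rw [h10]
  have h11 : (1 : ℝ) / 2 ≤ accs P A₀ x / 2 ^ T := by
    rw [le_div_iff₀ h9]
    linarith
  nlinarith

theorem dep_fail (P : Prog) (A₀ : ℕ → Bool) (x : List Bool) (m a t : ℕ) :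
    Dep a (a + t * (P.bound x.length * m))
      {A | ∀ j < t, ¬ P.Acc A₀ x (coins A m (a + j * (P.bound x.length * m)))} := by
  intro A A' h
  have h1 : ∀ j < t, (P.Acc A₀ x (coins A m (a + j * (P.bound x.length * m))) ↔
      P.Acc A₀ x (coins A' m (a + j * (P.bound x.length * m)))) := by
    intro j hj
    refine dep_acc P A₀ x m (a + j * (P.bound x.length * m)) A A' fun i hi hi' =>
      h i (by nlinarith) ?_
    have : (j + 1) * (P.bound x.length * m) ≤ t * (P.bound x.length * m) :=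
      Nat.mul_le_mul_right _ hj
    nlinarith
  constructor
  · intro hA j hj
    rw [← h1 j hj]
    exact hA j hj
  · intro hA j hj
    rw [h1 j hj]
    exact hA j hj

theorem pr_fail_le {P : Prog} {A₀ : ℕ → Bool} {x : List Bool} {m a : ℕ} {δ : ℝ}
    (hP : 2 ^ P.bound x.length ≤ 2 * accs P A₀ x)
    (h0 : 0 ≤ (1 - 2 * δ) ^ m) (h1 : (P.bound x.length : ℝ) * (1 - 2 * δ) ^ m ≤ 1 / 2) : ∀ t : ℕ,
    (∀ i, a ≤ i → i < a + t * (P.bound x.length * m) → ∀ b, δ ≤ (ν i).real {b}) →
    pr ν {A | ∀ j < t, ¬ P.Acc A₀ x (coins A m (a + j * (P.bound x.length * m)))} ≤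
      (3 / 4) ^ t := by
  intro t
  induction t with
  | zero =>
    intro _
    have h2 : {A : ℕ → Bool | ∀ j < 0, ¬ P.Acc A₀ x (coins A m (a + j * (P.bound x.length * m)))} =
        univ := by
      ext A
      simp
    rw [h2, pr_univ, pow_zero]
  | succ t ih =>
    intro hδ
    have e1 : a + (t + 1) * (P.bound x.length * m) =
      a + t * (P.bound x.length * m) + P.bound x.length * m := by ring
    have ih' := ih fun i hi hi' => hδ i hi (by omega)
    have hset : {A : ℕ → Bool | ∀ j < t + 1,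
        ¬ P.Acc A₀ x (coins A m (a + j * (P.bound x.length * m)))} =
        {A | ∀ j < t, ¬ P.Acc A₀ x (coins A m (a + j * (P.bound x.length * m)))} ∩
        {A | P.Acc A₀ x (coins A m (a + t * (P.bound x.length * m)))}ᶜ := by
      ext A
      simp only [mem_ofPred_eq, mem_inter_iff, mem_compl_iff]
      constructor
      · exact fun h => ⟨fun j hj => h j (by omega), h t (by omega)⟩
      · rintro ⟨h1, h2⟩ j hj
        rcases Nat.lt_succ_iff_lt_or_eq.1 hj with h | h
        · exact h1 j h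
        · rw [h]
          exact h2
    have hdep := dep_acc P A₀ x m (a + t * (P.bound x.length * m))
    rw [hset, pr_inter ν (dep_fail P A₀ x m a t) hdep.compl, pr_compl ν hdep, pow_succ]
    have h4 := pr_acc_ge ν (a := a + t * (P.bound x.length * m)) hP
      (fun i hi hi' => hδ i (by omega) (by omega)) h0 h1
    refine mul_le_mul ih' (by linarith) ?_ (by positivity)
    rw [← pr_compl ν hdep]
    exact pr_nonneg ν _

/-- the oracle is good for the program, but all trials fail -/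
def Bad (P : Prog) (x : List Bool) (m t : ℕ) : Set (ℕ → Bool) :=
  {A | 1 / 2 ≤ P.prob A x ∧
    ∀ j < t, ¬ P.Acc A x (coins A m (P.bound x.length + 1 + j * (P.bound x.length * m)))}

theorem dep_low (T : ℕ) (a₀ : Fin T → Bool) : Dep 0 T {A | ∀ i < T, A i = ext a₀ i} := by
  intro A A' h
  constructor
  · intro hA i hi
    rw [← h i (Nat.zero_le _) hi]
    exact hA i hi
  · intro hA i hi
    rw [h i (Nat.zero_le _) hi]
    exact hA i hi

theorem pr_bad_le {P : Prog} {x : List Bool} {m t : ℕ} {δ : ℝ}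
    (h0 : 0 ≤ (1 - 2 * δ) ^ m) (h1 : (P.bound x.length : ℝ) * (1 - 2 * δ) ^ m ≤ 1 / 2)
    (hδ : ∀ i, i < P.bound x.length + 1 + t * (P.bound x.length * m) → ∀ b, δ ≤ (ν i).real {b}) :
    pr ν (Bad P x m t) ≤ (3 / 4) ^ t := by
  classical
  obtain ⟨T, hT⟩ : ∃ T, T = P.bound x.length + 1 := ⟨_, rfl⟩
  let L : (Fin T → Bool) → Set (ℕ → Bool) := fun a₀ => {A | ∀ i < T, A i = ext a₀ i}
  let F : (Fin T → Bool) → Set (ℕ → Bool) := fun a₀ =>
    {A | ∀ j < t, ¬ P.Acc (ext a₀) x (coins A m (T + j * (P.bound x.length * m)))}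
  have hsub : Bad P x m t ⊆ ⋃ a₀ ∈ (Finset.univ.filter fun a₀ : Fin T → Bool =>
      2 ^ P.bound x.length ≤ 2 * accs P (ext a₀) x), (L a₀ ∩ F a₀) := by
    rintro A ⟨hA1, hA2⟩
    rw [mem_iUnion₂]
    have hag : ∀ a ≤ P.bound x.length, A a = ext (fun j : Fin T => A j) a := by
      intro a ha
      exact (ext_restrict A a (by omega)).symm
    refine ⟨fun j => A j, ?_, fun i hi => hag i (by omega), fun j hj hacc => ?_⟩
    · refine Finset.mem_filter.2 ⟨Finset.mem_univ _, ?_⟩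
      rw [half_le_iff] at hA1
      rwa [← accs_congr' P x hag]
    · have h5 := hA2 j hj
      rw [← hT] at h5
      exact h5 ((P.acc_congr_oracle x hag _).2 hacc)
  have hFdep : ∀ a₀, Dep T (T + t * (P.bound x.length * m)) (F a₀) := fun a₀ =>
    dep_fail P (ext a₀) x m T t
  have hterm : ∀ a₀ : Fin T → Bool, 2 ^ P.bound x.length ≤ 2 * accs P (ext a₀) x →
      pr ν (L a₀ ∩ F a₀) ≤ pr ν (L a₀) * (3 / 4) ^ t := by
    intro a₀ ha₀
    rw [pr_inter ν (dep_low T a₀) (hFdep a₀)]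
    refine mul_le_mul_of_nonneg_left ?_ (pr_nonneg ν _)
    exact pr_fail_le ν ha₀ h0 h1 t fun i _ hi' => hδ i (by omega)
  have htot : ∑ a₀ : Fin T → Bool, pr ν (L a₀) = 1 := by
    rw [← pr_univ ν]
    have hU : (univ : Set (ℕ → Bool)) = ⋃ a₀ ∈ (Finset.univ : Finset (Fin T → Bool)), L a₀ := by
      symm
      rw [eq_univ_iff_forall]
      intro A
      rw [mem_iUnion₂]
      exact ⟨fun j => A j, Finset.mem_univ _, fun i hi => (ext_restrict A i hi).symm⟩
    rw [hU]
    unfold pr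
    refine (measureReal_biUnion_finset ?_ fun a₀ _ => (dep_low T a₀).measurable).symm
    intro a _ a' _ hne
    rw [Function.onFun, Set.disjoint_left]
    intro A h2 h3
    refine hne (funext fun j => ?_)
    have h4 := h2 j j.2
    rw [h3 j j.2] at h4
    unfold ext at h4
    rw [dif_pos j.2, dif_pos j.2] at h4
    exact h4.symm
  calc pr ν (Bad P x m t) ≤ pr ν (⋃ a₀ ∈ (Finset.univ.filter fun a₀ : Fin T → Bool =>
        2 ^ P.bound x.length ≤ 2 * accs P (ext a₀) x), (L a₀ ∩ F a₀)) := pr_mono ν hsub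
    _ ≤ ∑ a₀ ∈ (Finset.univ.filter fun a₀ : Fin T → Bool =>
        2 ^ P.bound x.length ≤ 2 * accs P (ext a₀) x), pr ν (L a₀ ∩ F a₀) :=
        measureReal_biUnion_finset_le _ _
    _ ≤ ∑ a₀ ∈ (Finset.univ.filter fun a₀ : Fin T → Bool =>
        2 ^ P.bound x.length ≤ 2 * accs P (ext a₀) x), pr ν (L a₀) * (3 / 4) ^ t :=
        Finset.sum_le_sum fun a₀ ha₀ => hterm a₀ (Finset.mem_filter.1 ha₀).2
    _ ≤ ∑ a₀ : Fin T → Bool, pr ν (L a₀) * (3 / 4) ^ t :=
        Finset.sum_le_sum_of_subset_of_nonneg (Finset.filter_subset _ _) fun a₀ _ _ =>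
          mul_nonneg (pr_nonneg ν _) (by positivity)
    _ = (3 / 4) ^ t := by rw [← Finset.sum_mul, htot, one_mul]

end Pool.Agent.L0h58.RL
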