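import Pool.Agent.L0h58.RL.Base

/-!
# A program which simulates another one

The simulating program first counts in the register `2` as long as `s₁ ≤ s₂` (for instance in order to
find the end of a part of its input), and then simulates `P`; the register `i` of `P` is
the register `i + 3`, and the register `1` counts the steps of `P`. The input, the oracle, the length and
the random bits of `P` are given by expressions.
-/

set_option autoImplicit false

namespace Pool.Agent.L0h58.RL

theorem eval_ite_pos {W : ℕ} {x : List Bool} {A : ℕ → Bool} {v : ℕ → ℕ} {b : Bool}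
    {e f g h : Expr} (H : e.eval W x A v b ≤ f.eval W x A v b) :
    (Expr.ite e f g h).eval W x A v b = g.eval W x A v b := if_pos H

theorem eval_ite_neg {W : ℕ} {x : List Bool} {A : ℕ → Bool} {v : ℕ → ℕ} {b : Bool}
    {e f g h : Expr} (H : ¬ e.eval W x A v b ≤ f.eval W x A v b) :
    (Expr.ite e f g h).eval W x A v b = h.eval W x A v b := if_neg H

/-- powers -/
def powE (e : Expr) : ℕ → Expr
  | 0 => .const 1
  | k + 1 => .mul (powE e k) e

theorem eval_powE {W : ℕ} (x : List Bool) (A : ℕ → Bool) (v : ℕ → ℕ) (b : Bool) (e : Expr) (k : ℕ) :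
    (powE e k).eval W x A v b = (e.eval W x A v b) ^ k := by
  induction k with
  | zero => rfl
  | succ k ih => simp only [powE, Expr.eval, ih, pow_succ]

/-- the bound of `P` for inputs of length `L` -/
def bdE (c : ℕ) (L : Expr) : Expr := powE (.add L (.const 2)) (c + 1)

/-- the minimum -/
def capE (e w : Expr) : Expr := .ite e w e w

theorem eval_capE {W : ℕ} (x : List Bool) (A : ℕ → Bool) (v : ℕ → ℕ) (b : Bool) (e w : Expr) :
    (capE e w).eval W x A v b = min (e.eval W x A v b) (w.eval W x A v b) := by
  simp only [capE, Expr.eval]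
  split_ifs with h
  · rw [min_eq_left h]
  · rw [min_eq_right (by omega)]

/-- The translation of expressions. -/
def tr (L C WE : Expr) (I O : Expr → Expr) : Expr → Expr
  | .const a => .const a
  | .reg i => .reg (i + 3)
  | .len => L
  | .coin => C
  | .add e f => .add (tr L C WE I O e) (tr L C WE I O f)
  | .sub e f => .sub (tr L C WE I O e) (tr L C WE I O f)
  | .mul e f => .mul (tr L C WE I O e) (tr L C WE I O f)
  | .div e f => .div (tr L C WE I O e) (tr L C WE I O f)
  | .mod e f => .mod (tr L C WE I O e) (tr L C WE I O f)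
  | .ite e f g h => .ite (tr L C WE I O e) (tr L C WE I O f) (tr L C WE I O g) (tr L C WE I O h)
  | .inp e => I (tr L C WE I O e)
  | .orc e => O (capE (tr L C WE I O e) WE)

theorem eval_tr {W W' : ℕ} {x x' : List Bool} {A A' : ℕ → Bool} {v v' : ℕ → ℕ} {b b' : Bool}
    {L C WE : Expr} {I O : Expr → Expr}
    (hL : L.eval W' x' A' v' b' = x.length) (hC : C.eval W' x' A' v' b' = b.toNat)
    (hW : WE.eval W' x' A' v' b' = W)
    (hI : ∀ e : Expr, (I e).eval W' x' A' v' b' = inputAt x (e.eval W' x' A' v' b'))
    (hO : ∀ e : Expr, e.eval W' x' A' v' b' ≤ W →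
      (O e).eval W' x' A' v' b' = (A (e.eval W' x' A' v' b')).toNat)
    (hv : ∀ i, v' (i + 3) = v i) (e : Expr) :
    (tr L C WE I O e).eval W' x' A' v' b' = e.eval W x A v b := by
  induction e with
  | const a => rfl
  | reg i => exact hv i
  | len => exact hL
  | coin => exact hC
  | add e f he hf => simp only [tr, Expr.eval, he, hf]
  | sub e f he hf => simp only [tr, Expr.eval, he, hf]
  | mul e f he hf => simp only [tr, Expr.eval, he, hf]
  | div e f he hf => simp only [tr, Expr.eval, he, hf]
  | mod e f he hf => simp only [tr, Expr.eval, he, hf]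
  | ite e f g k he hf hg hk => simp only [tr, Expr.eval, he, hf, hg, hk]
  | inp e he => simp only [tr, Expr.eval, hI, he]
  | orc e he =>
    simp only [tr, Expr.eval]
    rw [hO, eval_capE, he, hW]
    rw [eval_capE, he, hW]
    exact min_le_right _ _

/-- The data of a simulation. -/
structure Sim where
  /-- the first part of the condition for counting -/
  s₁ : Expr
  /-- the second part -/
  s₂ : Expr
  /-- the length of the simulated input -/
  L : Expr
  /-- the random bit -/
  C : Expr
  /-- the input -/
  I : Expr → Expr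
  /-- the oracle -/
  O : Expr → Expr
  /-- the output -/
  Out : Expr
  /-- the exponent -/
  c' : ℕ

/-- The code of the register `i + 3`. -/
def Sim.line (D : Sim) (P : Prog) (i : ℕ) (e : Expr) : Expr :=
  .ite D.s₁ D.s₂ (.const 0) (.ite (.add (.reg 1) (.const 1)) (bdE P.c D.L)
    (capE (tr D.L D.C (bdE P.c D.L) D.I D.O e) (bdE P.c D.L)) (.reg (i + 3)))

/-- The simulating program. -/
def Sim.prog (D : Sim) (P : Prog) : Prog where
  code := D.Out :: (.ite D.s₁ D.s₂ (.const 0) (.add (.reg 1) (.const 1))) ::
    (.ite D.s₁ D.s₂ (.add (.reg 2) (.const 1)) (.reg 2)) :: P.code.mapIdx (D.line P)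
  c := D.c'

/-- The conditions under which the simulation is correct. -/
structure Sim.OK (D : Sim) (P : Prog) (A A' : ℕ → Bool) (x x' : List Bool) (r r' : ℕ → Bool)
    (s : ℕ) : Prop where
  scan : ∀ v b, v 2 < s → D.s₁.eval ((D.prog P).bound x'.length) x' A' v b ≤
    D.s₂.eval ((D.prog P).bound x'.length) x' A' v b
  stop : ∀ v b, v 2 = s → ¬ D.s₁.eval ((D.prog P).bound x'.length) x' A' v b ≤
    D.s₂.eval ((D.prog P).bound x'.length) x' A' v b
  len : ∀ v b, v 2 = s → D.L.eval ((D.prog P).bound x'.length) x' A' v b = x.length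
  coin : ∀ v t, v 2 = s → v 1 = t → t < P.bound x.length →
    D.C.eval ((D.prog P).bound x'.length) x' A' v (r' (s + t)) = (r t).toNat
  inp : ∀ v b, v 2 = s → ∀ e : Expr, (D.I e).eval ((D.prog P).bound x'.length) x' A' v b =
    inputAt x (e.eval ((D.prog P).bound x'.length) x' A' v b)
  orc : ∀ v b, v 2 = s → ∀ e : Expr,
    e.eval ((D.prog P).bound x'.length) x' A' v b ≤ P.bound x.length →
    (D.O e).eval ((D.prog P).bound x'.length) x' A' v b =
      (A (e.eval ((D.prog P).bound x'.length) x' A' v b)).toNat
  time : s + P.bound x.length + 1 ≤ (D.prog P).bound x'.length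

theorem eval_bdE {W : ℕ} (x : List Bool) (A : ℕ → Bool) (v : ℕ → ℕ) (b : Bool) (L : Expr) (P : Prog)
    {n : ℕ} (h : L.eval W x A v b = n) : (bdE P.c L).eval W x A v b = P.bound n := by
  unfold bdE Prog.bound
  rw [eval_powE]
  simp only [Expr.eval, h]

section

variable {D : Sim} {P : Prog} {A A' : ℕ → Bool} {x x' : List Bool} {r r' : ℕ → Bool} {s : ℕ}

theorem Sim.getElem_reg (D : Sim) (P : Prog) (i : ℕ) : (D.prog P).code[i + 3]? =
    (P.code[i]?).map (D.line P i) := by
  change (P.code.mapIdx (D.line P))[i]? = _
  rw [List.getElem?_mapIdx]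

theorem Sim.step_one (D : Sim) (P : Prog) (A' : ℕ → Bool) (x' : List Bool) (v : ℕ → ℕ) (b : Bool) :
    (D.prog P).step A' x' v b 1 =
      min (if D.s₁.eval ((D.prog P).bound x'.length) x' A' v b ≤
        D.s₂.eval ((D.prog P).bound x'.length) x' A' v b then 0 else v 1 + 1)
        ((D.prog P).bound x'.length) := rfl

theorem Sim.step_two (D : Sim) (P : Prog) (A' : ℕ → Bool) (x' : List Bool) (v : ℕ → ℕ) (b : Bool) :
    (D.prog P).step A' x' v b 2 =
      min (if D.s₁.eval ((D.prog P).bound x'.length) x' A' v b ≤
        D.s₂.eval ((D.prog P).bound x'.length) x' A' v b then v 2 + 1 else v 2)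
        ((D.prog P).bound x'.length) := rfl

theorem Sim.step_zero (D : Sim) (P : Prog) (A' : ℕ → Bool) (x' : List Bool) (v : ℕ → ℕ) (b : Bool) :
    (D.prog P).step A' x' v b 0 =
      min (D.Out.eval ((D.prog P).bound x'.length) x' A' v b) ((D.prog P).bound x'.length) := rfl

/-- the counting phase -/
theorem Sim.OK.scanning (h : D.OK P A A' x x' r r' s) : ∀ t ≤ s,
    (D.prog P).run A' x' r' t 1 = 0 ∧ (D.prog P).run A' x' r' t 2 = t ∧
      ∀ i, (D.prog P).run A' x' r' t (i + 3) = 0 := by
  intro t
  have htime := h.time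
  induction t with
  | zero => exact fun _ => ⟨rfl, rfl, fun _ => rfl⟩
  | succ t ih =>
    intro ht
    obtain ⟨h1, h2, h3⟩ := ih (by omega)
    have hs := h.scan ((D.prog P).run A' x' r' t) (r' t) (by omega)
    refine ⟨?_, ?_, fun i => ?_⟩
    · change (D.prog P).step A' x' ((D.prog P).run A' x' r' t) (r' t) 1 = 0
      rw [Sim.step_one, if_pos hs]
      exact Nat.zero_min _
    · change (D.prog P).step A' x' ((D.prog P).run A' x' r' t) (r' t) 2 = t + 1
      rw [Sim.step_two, if_pos hs, h2]
      exact min_eq_left (by omega)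
    · change (D.prog P).step A' x' ((D.prog P).run A' x' r' t) (r' t) (i + 3) = 0
      unfold Prog.step
      rw [Sim.getElem_reg]
      cases hc : P.code[i]? with
      | none => rfl
      | some e =>
        simp only [Option.map_some, Sim.line, Expr.eval]
        rw [if_pos hs]
        exact Nat.zero_min _

/-- the simulation -/
theorem Sim.OK.simulating (h : D.OK P A A' x x' r r' s) : ∀ t,
    s + t ≤ (D.prog P).bound x'.length →
    (D.prog P).run A' x' r' (s + t) 1 = t ∧ (D.prog P).run A' x' r' (s + t) 2 = s ∧
      ∀ i, (D.prog P).run A' x' r' (s + t) (i + 3) =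
        P.run A x r (min t (P.bound x.length)) i := by
  intro t
  have htime := h.time
  induction t with
  | zero =>
    intro _
    obtain ⟨h1, h2, h3⟩ := h.scanning s le_rfl
    refine ⟨h1, h2, fun i => ?_⟩
    rw [Nat.zero_min]
    exact h3 i
  | succ t ih =>
    intro ht
    obtain ⟨h1, h2, h3⟩ := ih (by omega)
    have hs := h.stop ((D.prog P).run A' x' r' (s + t)) (r' (s + t)) h2
    refine ⟨?_, ?_, fun i => ?_⟩
    · change (D.prog P).step A' x' ((D.prog P).run A' x' r' (s + t)) (r' (s + t)) 1 = t + 1
      rw [Sim.step_one, if_neg hs, h1]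
      exact min_eq_left (by omega)
    · change (D.prog P).step A' x' ((D.prog P).run A' x' r' (s + t)) (r' (s + t)) 2 = s
      rw [Sim.step_two, if_neg hs, h2]
      exact min_eq_left (by omega)
    · change (D.prog P).step A' x' ((D.prog P).run A' x' r' (s + t)) (r' (s + t)) (i + 3) = _
      have hL := h.len ((D.prog P).run A' x' r' (s + t)) (r' (s + t)) h2
      have hW := eval_bdE x' A' ((D.prog P).run A' x' r' (s + t)) (r' (s + t)) D.L P hL
      unfold Prog.step
      rw [Sim.getElem_reg]
      by_cases hlt : t < P.bound x.length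
      · rw [show min (t + 1) (P.bound x.length) = t + 1 from min_eq_left (by omega)]
        change _ = P.step A x (P.run A x r t) (r t) i
        unfold Prog.step
        cases hc : P.code[i]? with
        | none => rfl
        | some e =>
          simp only [Option.map_some, Sim.line]
          rw [eval_ite_neg hs, eval_ite_pos (by
            rw [hW]
            change (D.prog P).run A' x' r' (s + t) 1 + 1 ≤ _
            omega), eval_capE, hW]
          rw [eval_tr hL (h.coin _ t h2 h1 hlt) hW (h.inp _ _ h2) (h.orc _ _ h2)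
            (v := P.run A x r t) (fun j => by rw [h3 j, min_eq_left (by omega)])]
          exact min_eq_left ((min_le_right _ _).trans (by omega))
      · rw [show min (t + 1) (P.bound x.length) = P.bound x.length from min_eq_right (by omega)]
        have h4 := h3 i
        rw [show min t (P.bound x.length) = P.bound x.length from min_eq_right (by omega)] at h4
        cases hc : P.code[i]? with
        | none =>
          have : P.run A x r (P.bound x.length) i = 0 := by
            have hb := P.bound_ge x.length
            obtain ⟨k, hk⟩ : ∃ k, P.bound x.length = k + 1 := ⟨P.bound x.length - 1, by omega⟩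
            rw [hk]
            change P.step A x _ _ i = 0
            unfold Prog.step
            rw [hc]
          rw [this]
          rfl
        | some e =>
          simp only [Option.map_some, Sim.line]
          rw [eval_ite_neg hs, eval_ite_neg (by
            rw [hW]
            change ¬ (D.prog P).run A' x' r' (s + t) 1 + 1 ≤ _
            omega)]
          change min ((D.prog P).run A' x' r' (s + t) (i + 3)) _ = _
          rw [h4]
          exact min_eq_left ((P.run_le A x r _ i).trans (by omega))

/-- the output -/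
theorem Sim.OK.acc (h : D.OK P A A' x x' r r' s) {R : Prop}
    (hR : ∀ v b, v 2 = s → v 3 = P.run A x r (P.bound x.length) 0 →
      (D.Out.eval ((D.prog P).bound x'.length) x' A' v b ≠ 0 ↔ R)) :
    (D.prog P).Acc A' x' r' ↔ R := by
  have htime := h.time
  have hb := (D.prog P).bound_ge x'.length
  obtain ⟨k, hk⟩ : ∃ k, (D.prog P).bound x'.length = s + k + 1 :=
    ⟨(D.prog P).bound x'.length - s - 1, by omega⟩
  obtain ⟨-, h2, h3⟩ := h.simulating k (by omega)
  rw [← hR ((D.prog P).run A' x' r' (s + k)) (r' (s + k)) h2 (by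
    have := h3 0
    rw [min_eq_right (by omega)] at this
    exact this)]
  unfold Prog.Acc
  have h5 : (D.prog P).run A' x' r' ((D.prog P).bound x'.length) 0 =
      (D.prog P).run A' x' r' (s + k + 1) 0 := by rw [← hk]
  rw [h5]
  change (D.prog P).step A' x' ((D.prog P).run A' x' r' (s + k)) (r' (s + k)) 0 ≠ 0 ↔ _
  rw [Sim.step_zero]
  omega

theorem Sim.OK.acc_reg (h : D.OK P A A' x x' r r' s) (hO : D.Out = .reg 3) :
    (D.prog P).Acc A' x' r' ↔ P.Acc A x r := by
  refine h.acc fun v b _ h3 => ?_
  rw [hO]
  change v 3 ≠ 0 ↔ _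
  rw [h3]
  rfl

end

/-- If the output expression does not depend on the simulation then nothing else matters. -/
theorem Sim.acc_const (D : Sim) (P : Prog) (A' : ℕ → Bool) (x' : List Bool) (r' : ℕ → Bool)
    {R : Prop} (hR : ∀ v b, D.Out.eval ((D.prog P).bound x'.length) x' A' v b ≠ 0 ↔ R) :
    (D.prog P).Acc A' x' r' ↔ R := by
  have hb := (D.prog P).bound_ge x'.length
  obtain ⟨k, hk⟩ : ∃ k, (D.prog P).bound x'.length = k + 1 :=
    ⟨(D.prog P).bound x'.length - 1, by omega⟩
  rw [← hR ((D.prog P).run A' x' r' k) (r' k)]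
  unfold Prog.Acc
  have h5 : (D.prog P).run A' x' r' ((D.prog P).bound x'.length) 0 =
      (D.prog P).run A' x' r' (k + 1) 0 := by rw [← hk]
  rw [h5]
  change (D.prog P).step A' x' ((D.prog P).run A' x' r' k) (r' k) 0 ≠ 0 ↔ _
  rw [Sim.step_zero]
  omega

end Pool.Agent.L0h58.RL
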