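import Pool.Agent.L0h58.RL.Tab

/-!
# Many trials with random bits taken from the oracle

Every random bit is the parity of `m` consecutive bits of the oracle.
-/

set_option autoImplicit false

namespace Pool.Agent.L0h58.RL

/-- The translation of expressions: registers are shifted by five, the random bit is in the
register `3`. -/
def tq (w : Expr) : Expr → Expr
  | .const a => .const a
  | .reg i => .reg (i + 5)
  | .len => .len
  | .coin => .reg 3
  | .add e f => .add (tq w e) (tq w f)
  | .sub e f => .sub (tq w e) (tq w f)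
  | .mul e f => .mul (tq w e) (tq w f)
  | .div e f => .div (tq w e) (tq w f)
  | .mod e f => .mod (tq w e) (tq w f)
  | .ite e f g h => .ite (tq w e) (tq w f) (tq w g) (tq w h)
  | .inp e => .inp (tq w e)
  | .orc e => .orc (capE (tq w e) w)

theorem eval_tq {W W' : ℕ} {x : List Bool} {A : ℕ → Bool} {v v' : ℕ → ℕ} {b b' : Bool} {w : Expr}
    (hw : w.eval W' x A v' b' = W) (hW : W ≤ W') (hb : v' 3 = b.toNat)
    (hv : ∀ i, v' (i + 5) = v i) (e : Expr) :
    (tq w e).eval W' x A v' b' = e.eval W x A v b := by
  induction e with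
  | const a => rfl
  | reg i => exact hv i
  | len => rfl
  | coin => exact hb
  | add e f he hf => simp only [tq, Expr.eval, he, hf]
  | sub e f he hf => simp only [tq, Expr.eval, he, hf]
  | mul e f he hf => simp only [tq, Expr.eval, he, hf]
  | div e f he hf => simp only [tq, Expr.eval, he, hf]
  | mod e f he hf => simp only [tq, Expr.eval, he, hf]
  | ite e f g k he hf hg hk => simp only [tq, Expr.eval, he, hf, hg, hk]
  | inp e he => simp only [tq, Expr.eval, he]
  | orc e he =>
    simp only [tq, Expr.eval]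
    rw [eval_capE, he, hw, min_eq_left (((min_le_right _ _)).trans hW)]

/-- number of steps of `P` -/
def TE (P : Prog) : Expr := bdE P.c .len

/-- the length of the blocks -/
def ME (d : ℕ) : Expr := powE (.add .len (.const 2)) d

/-- are there steps left in this trial? -/
def c₁ (P : Prog) (X Y : Expr) : Expr := .ite (.add (.reg 1) (.const 1)) (TE P) X Y

/-- is the block unfinished? -/
def c₂ (d : ℕ) (X Y : Expr) : Expr := .ite (.add (.reg 2) (.const 1)) (ME d) X Y

/-- The program which makes many trials. -/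
def trials (P : Prog) (d c' : ℕ) : Prog where
  code := (c₁ P (.reg 0) (.ite (.const 1) (.reg 5) (.const 1) (.reg 0))) ::
    (c₁ P (c₂ d (.reg 1) (.add (.reg 1) (.const 1))) (.const 0)) ::
    (c₁ P (c₂ d (.add (.reg 2) (.const 1)) (.const 0)) (.const 0)) ::
    (c₁ P (c₂ d (.mod (.add (.reg 3) (.orc (.add (.add (TE P) (.const 1)) (.reg 4)))) (.const 2))
      (.const 0)) (.const 0)) ::
    (c₁ P (c₂ d (.add (.reg 4) (.const 1)) (.reg 4)) (.reg 4)) ::
    P.code.mapIdx (fun i e => c₁ P (c₂ d (.reg (i + 5)) (capE (tq (TE P) e) (TE P))) (.const 0))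
  c := c'

/-- The state of the registers. -/
structure At (w : ℕ → ℕ) (f s u b a : ℕ) (v : ℕ → ℕ) : Prop where
  h0 : w 0 = f
  h1 : w 1 = s
  h2 : w 2 = u
  h3 : w 3 = b
  h4 : w 4 = a
  h5 : ∀ i, w (i + 5) = v i

section

variable {P : Prog} {d c' : ℕ} {A : ℕ → Bool} {x : List Bool}

/-- the bits of the oracle which are used -/
def β (P : Prog) (d c' : ℕ) (A : ℕ → Bool) (x : List Bool) (i : ℕ) : Bool :=
  A (min (P.bound x.length + 1 + i) ((trials P d c').bound x.length))

theorem trials_code (P : Prog) (d c' i : ℕ) : (trials P d c').code[i + 5]? = (P.code[i]?).map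
    fun e => c₁ P (c₂ d (.reg (i + 5)) (capE (tq (TE P) e) (TE P))) (.const 0) := by
  change (P.code.mapIdx (fun i e => c₁ P (c₂ d (.reg (i + 5)) (capE (tq (TE P) e) (TE P)))
    (.const 0)))[i]? = _
  rw [List.getElem?_mapIdx]

theorem eval_TE {W : ℕ} {w : ℕ → ℕ} {b : Bool} : (TE P).eval W x A w b = P.bound x.length :=
  eval_bdE x A w b .len P rfl

theorem eval_ME {W : ℕ} {w : ℕ → ℕ} {b : Bool} :
    (ME d).eval W x A w b = (x.length + 2) ^ d := eval_powE x A w b _ d

theorem c₁_pos {W : ℕ} {w : ℕ → ℕ} {b : Bool} {X Y : Expr} (h : w 1 < P.bound x.length) :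
    (c₁ P X Y).eval W x A w b = X.eval W x A w b :=
  eval_ite_pos (by rw [eval_TE]; exact h)

theorem c₁_neg {W : ℕ} {w : ℕ → ℕ} {b : Bool} {X Y : Expr} (h : ¬ w 1 < P.bound x.length) :
    (c₁ P X Y).eval W x A w b = Y.eval W x A w b :=
  eval_ite_neg (by rw [eval_TE]; exact h)

theorem c₂_pos {W : ℕ} {w : ℕ → ℕ} {b : Bool} {X Y : Expr} (h : w 2 < (x.length + 2) ^ d) :
    (c₂ d X Y).eval W x A w b = X.eval W x A w b :=
  eval_ite_pos (by rw [eval_ME]; exact h)

theorem c₂_neg {W : ℕ} {w : ℕ → ℕ} {b : Bool} {X Y : Expr} (h : ¬ w 2 < (x.length + 2) ^ d) :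
    (c₂ d X Y).eval W x A w b = Y.eval W x A w b :=
  eval_ite_neg (by rw [eval_ME]; exact h)

/-- possible contents of the registers of `P` -/
def Nice (P : Prog) (x : List Bool) (v : ℕ → ℕ) : Prop :=
  (∀ i, v i ≤ P.bound x.length) ∧ ∀ i, P.code[i]? = none → v i = 0

theorem nice_zero (P : Prog) (x : List Bool) : Nice P x fun _ => 0 :=
  ⟨fun _ => Nat.zero_le _, fun _ _ => rfl⟩

theorem nice_step (P : Prog) (A : ℕ → Bool) (x : List Bool) (v : ℕ → ℕ) (b : Bool) :
    Nice P x (P.step A x v b) := by
  refine ⟨fun i => P.step_le A x v b i, fun i hi => ?_⟩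
  unfold Prog.step
  rw [hi]

theorem nice_run (P : Prog) (A : ℕ → Bool) (x : List Bool) (r : ℕ → Bool) (t : ℕ) :
    Nice P x (P.run A x r t) := by
  cases t with
  | zero => exact nice_zero P x
  | succ t => exact nice_step P A x _ _

/-- The number of steps of the trials is large enough. -/
structure Big (P : Prog) (d c' : ℕ) (x : List Bool) : Prop where
  hT : P.bound x.length ≤ (trials P d c').bound x.length
  hm : (x.length + 2) ^ d ≤ (trials P d c').bound x.length

theorem stepA (hB : Big P d c' x) {w v : ℕ → ℕ} {f s u b a : ℕ}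
    (h : At w f s u b a v) (hf : f ≤ 1) (hs : s < P.bound x.length) (hu : u < (x.length + 2) ^ d)
    (ha : a + 1 ≤ (trials P d c').bound x.length)
    (hv : Nice P x v) (r : Bool) :
    At ((trials P d c').step A x w r) f s (u + 1) ((b + (β P d c' A x a).toNat) % 2) (a + 1) v := by
  have hs' : w 1 < P.bound x.length := by rw [h.h1]; exact hs
  have hu' : w 2 < (x.length + 2) ^ d := by rw [h.h2]; exact hu
  have hb := (trials P d c').bound_ge x.length
  have hT := hB.hT
  have hm := hB.hm
  refine ⟨?_, ?_, ?_, ?_, ?_, fun i => ?_⟩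
  · change min ((c₁ P _ _).eval _ x A w r) _ = _
    rw [c₁_pos hs']
    change min (w 0) _ = _
    rw [h.h0, min_eq_left (by omega)]
  · change min ((c₁ P _ _).eval _ x A w r) _ = _
    rw [c₁_pos hs', c₂_pos hu']
    change min (w 1) _ = _
    rw [h.h1, min_eq_left (by omega)]
  · change min ((c₁ P _ _).eval _ x A w r) _ = _
    rw [c₁_pos hs', c₂_pos hu']
    change min (w 2 + 1) _ = _
    rw [h.h2, min_eq_left (by omega)]
  · change min ((c₁ P _ _).eval _ x A w r) _ = _
    rw [c₁_pos hs', c₂_pos hu']
    change min ((w 3 + (A (min ((TE P).eval _ x A w r + 1 + w 4) _)).toNat) % 2) _ = _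
    rw [eval_TE, h.h3, h.h4, min_eq_left (by omega)]
    rfl
  · change min ((c₁ P _ _).eval _ x A w r) _ = _
    rw [c₁_pos hs', c₂_pos hu']
    change min (w 4 + 1) _ = _
    rw [h.h4, min_eq_left (by omega)]
  · unfold Prog.step
    rw [trials_code]
    cases hc : P.code[i]? with
    | none => exact (hv.2 i hc).symm
    | some e =>
      simp only [Option.map_some]
      rw [c₁_pos hs', c₂_pos hu']
      change min (w (i + 5)) _ = _
      rw [h.h5, min_eq_left ((hv.1 i).trans hT)]

theorem stepB (hB : Big P d c' x) {w v : ℕ → ℕ} {f s u a : ℕ} {b : Bool}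
    (h : At w f s u b.toNat a v) (hf : f ≤ 1) (hs : s < P.bound x.length)
    (hu : ¬ u < (x.length + 2) ^ d) (ha : a ≤ (trials P d c').bound x.length) (r : Bool) :
    At ((trials P d c').step A x w r) f (s + 1) 0 0 a (P.step A x v b) := by
  have hs' : w 1 < P.bound x.length := by rw [h.h1]; exact hs
  have hu' : ¬ w 2 < (x.length + 2) ^ d := by rw [h.h2]; exact hu
  have hb := (trials P d c').bound_ge x.length
  have hT := hB.hT
  refine ⟨?_, ?_, ?_, ?_, ?_, fun i => ?_⟩
  · change min ((c₁ P _ _).eval _ x A w r) _ = _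
    rw [c₁_pos hs']
    change min (w 0) _ = _
    rw [h.h0, min_eq_left (by omega)]
  · change min ((c₁ P _ _).eval _ x A w r) _ = _
    rw [c₁_pos hs', c₂_neg hu']
    change min (w 1 + 1) _ = _
    rw [h.h1, min_eq_left (by omega)]
  · change min ((c₁ P _ _).eval _ x A w r) _ = _
    rw [c₁_pos hs', c₂_neg hu']
    exact Nat.zero_min _
  · change min ((c₁ P _ _).eval _ x A w r) _ = _
    rw [c₁_pos hs', c₂_neg hu']
    exact Nat.zero_min _
  · change min ((c₁ P _ _).eval _ x A w r) _ = _
    rw [c₁_pos hs', c₂_neg hu']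
    change min (w 4) _ = _
    rw [h.h4, min_eq_left (by omega)]
  · unfold Prog.step
    rw [trials_code]
    cases hc : P.code[i]? with
    | none => rfl
    | some e =>
      simp only [Option.map_some]
      rw [c₁_pos hs', c₂_neg hu', eval_capE, eval_TE, eval_tq eval_TE hT h.h3 h.h5]
      exact min_eq_left ((min_le_right _ _).trans hT)

theorem stepC {w v : ℕ → ℕ} {f s u b a : ℕ}
    (h : At w f s u b a v) (hf : f ≤ 1) (hs : ¬ s < P.bound x.length)
    (ha : a ≤ (trials P d c').bound x.length) (r : Bool) :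
    At ((trials P d c').step A x w r) (if v 0 ≠ 0 then 1 else f) 0 0 0 a fun _ => 0 := by
  have hs' : ¬ w 1 < P.bound x.length := by rw [h.h1]; exact hs
  have hb := (trials P d c').bound_ge x.length
  refine ⟨?_, ?_, ?_, ?_, ?_, fun i => ?_⟩
  · change min ((c₁ P _ _).eval _ x A w r) _ = _
    rw [c₁_neg hs']
    have h5 : w 5 = v 0 := h.h5 0
    by_cases hv : v 0 ≠ 0
    · rw [if_pos hv, eval_ite_pos (by change 1 ≤ w 5; omega)]
      change min 1 _ = 1
      rw [min_eq_left (by omega)]
    · rw [if_neg hv, eval_ite_neg (by change ¬ 1 ≤ w 5; omega)]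
      change min (w 0) _ = f
      rw [h.h0, min_eq_left (by omega)]
  · change min ((c₁ P _ _).eval _ x A w r) _ = _
    rw [c₁_neg hs']
    exact Nat.zero_min _
  · change min ((c₁ P _ _).eval _ x A w r) _ = _
    rw [c₁_neg hs']
    exact Nat.zero_min _
  · change min ((c₁ P _ _).eval _ x A w r) _ = _
    rw [c₁_neg hs']
    exact Nat.zero_min _
  · change min ((c₁ P _ _).eval _ x A w r) _ = _
    rw [c₁_neg hs']
    change min (w 4) _ = _
    rw [h.h4, min_eq_left (by omega)]
  · unfold Prog.step
    rw [trials_code]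
    cases hc : P.code[i]? with
    | none => rfl
    | some e =>
      simp only [Option.map_some]
      rw [c₁_neg hs']
      exact Nat.zero_min _

/-- the parity of `u` bits -/
def par (g : ℕ → Bool) (a : ℕ) : ℕ → Bool
  | 0 => false
  | u + 1 => xor (par g a u) (g (a + u))

theorem toNat_xor (b c : Bool) : (xor b c).toNat = (b.toNat + c.toNat) % 2 := by
  cases b <;> cases c <;> rfl

/-- the random bits of a trial -/
def coins (g : ℕ → Bool) (m a : ℕ) (s : ℕ) : Bool := par g (a + s * m) m

theorem block (hB : Big P d c' x) (r : ℕ → Bool) {f s a τ : ℕ} {v : ℕ → ℕ}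
    (h : At ((trials P d c').run A x r τ) f s 0 0 a v) (hf : f ≤ 1) (hs : s < P.bound x.length)
    (hv : Nice P x v) : ∀ u ≤ (x.length + 2) ^ d, a + u ≤ (trials P d c').bound x.length →
    At ((trials P d c').run A x r (τ + u)) f s u (par (β P d c' A x) a u).toNat (a + u) v := by
  intro u
  induction u with
  | zero => exact fun _ _ => h
  | succ u ih =>
    intro hu ha
    have h1 := stepA (A := A) hB (ih (by omega) (by omega)) hf hs (by omega) (by omega) hv
      (r (τ + u))
    rw [show (par (β P d c' A x) a (u + 1)).toNat =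
      ((par (β P d c' A x) a u).toNat + (β P d c' A x (a + u)).toNat) % 2 from toNat_xor _ _]
    exact h1

theorem trialStep (hB : Big P d c' x) (r : ℕ → Bool) {f s a τ : ℕ} {v : ℕ → ℕ}
    (h : At ((trials P d c').run A x r τ) f s 0 0 a v) (hf : f ≤ 1) (hs : s < P.bound x.length)
    (hv : Nice P x v) (ha : a + (x.length + 2) ^ d ≤ (trials P d c').bound x.length) :
    At ((trials P d c').run A x r (τ + ((x.length + 2) ^ d + 1))) f (s + 1) 0 0
      (a + (x.length + 2) ^ d)
      (P.step A x v (par (β P d c' A x) a ((x.length + 2) ^ d))) := by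
  have h1 := block hB r h hf hs hv _ le_rfl ha
  exact stepB hB h1 hf hs (by omega) ha (r (τ + (x.length + 2) ^ d))

theorem trialSteps (hB : Big P d c' x) (r : ℕ → Bool) {f a τ : ℕ}
    (h : At ((trials P d c').run A x r τ) f 0 0 0 a fun _ => 0) (hf : f ≤ 1) :
    ∀ s ≤ P.bound x.length, a + s * (x.length + 2) ^ d ≤ (trials P d c').bound x.length →
    At ((trials P d c').run A x r (τ + s * ((x.length + 2) ^ d + 1))) f s 0 0
      (a + s * (x.length + 2) ^ d)
      (P.run A x (coins (β P d c' A x) ((x.length + 2) ^ d) a) s) := by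
  intro s
  induction s with
  | zero =>
    intro _ _
    rw [Nat.zero_mul, Nat.zero_mul]
    exact h
  | succ s ih =>
    intro hs ha
    have e1 : (s + 1) * (x.length + 2) ^ d = s * (x.length + 2) ^ d + (x.length + 2) ^ d := by ring
    have e2 : (s + 1) * ((x.length + 2) ^ d + 1) =
      s * ((x.length + 2) ^ d + 1) + ((x.length + 2) ^ d + 1) := by ring
    rw [e1] at ha
    have h1 := trialStep hB r (ih (by omega) (by omega)) hf (by omega)
      (nice_run P A x _ s) (by omega)
    rw [e1, e2, ← Nat.add_assoc a, ← Nat.add_assoc τ]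
    exact h1

/-- the number of steps of a trial -/
def per (P : Prog) (d : ℕ) (x : List Bool) : ℕ :=
  P.bound x.length * ((x.length + 2) ^ d + 1) + 1

open Classical in
theorem trial (hB : Big P d c' x) (r : ℕ → Bool) {f a τ : ℕ}
    (h : At ((trials P d c').run A x r τ) f 0 0 0 a fun _ => 0) (hf : f ≤ 1)
    (ha : a + P.bound x.length * (x.length + 2) ^ d ≤ (trials P d c').bound x.length) :
    At ((trials P d c').run A x r (τ + per P d x))
      (if P.Acc A x (coins (β P d c' A x) ((x.length + 2) ^ d) a) then 1 else f) 0 0 0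
      (a + P.bound x.length * (x.length + 2) ^ d) fun _ => 0 := by
  have h1 := trialSteps hB r h hf _ le_rfl ha
  have h2 := stepC (A := A) h1 hf (lt_irrefl _) ha
    (r (τ + P.bound x.length * ((x.length + 2) ^ d + 1)))
  unfold per
  rw [← Nat.add_assoc τ]
  by_cases hacc : P.run A x (coins (β P d c' A x) ((x.length + 2) ^ d) a) (P.bound x.length) 0 ≠ 0
  · rw [if_pos hacc] at h2
    rw [if_pos (show P.Acc A x _ from hacc)]
    exact h2
  · rw [if_neg hacc] at h2
    rw [if_neg (show ¬ P.Acc A x _ from hacc)]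
    exact h2

open Classical in
theorem all_trials (hB : Big P d c' x) (r : ℕ → Bool) : ∀ J : ℕ,
    J * per P d x ≤ (trials P d c').bound x.length →
    At ((trials P d c').run A x r (J * per P d x))
      (if ∃ j < J, P.Acc A x (coins (β P d c' A x) ((x.length + 2) ^ d)
        (j * (P.bound x.length * (x.length + 2) ^ d))) then 1 else 0) 0 0 0
      (J * (P.bound x.length * (x.length + 2) ^ d)) fun _ => 0 := by
  intro J
  induction J with
  | zero =>
    intro _
    rw [Nat.zero_mul, Nat.zero_mul, if_neg (by simp)]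
    exact ⟨rfl, rfl, rfl, rfl, rfl, fun _ => rfl⟩
  | succ J ih =>
    intro hJ
    have e1 : (J + 1) * per P d x = J * per P d x + per P d x := by ring
    have e2 : (J + 1) * (P.bound x.length * (x.length + 2) ^ d) =
      J * (P.bound x.length * (x.length + 2) ^ d) + P.bound x.length * (x.length + 2) ^ d := by ring
    rw [e1] at hJ
    have hle : P.bound x.length * (x.length + 2) ^ d ≤ per P d x := by
      unfold per
      nlinarith
    have hle2 : J * (P.bound x.length * (x.length + 2) ^ d) ≤ J * per P d x :=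
      Nat.mul_le_mul_left _ hle
    have h1 := trial hB r (ih (by omega)) (by split_ifs <;> omega) (by omega)
    rw [e1, e2]
    convert h1 using 1
    by_cases h3 : P.Acc A x (coins (β P d c' A x) ((x.length + 2) ^ d)
        (J * (P.bound x.length * (x.length + 2) ^ d)))
    · rw [if_pos h3, if_pos ⟨J, by omega, h3⟩]
    · rw [if_neg h3]
      have h4 : (∃ j < J + 1, P.Acc A x (coins (β P d c' A x) ((x.length + 2) ^ d)
          (j * (P.bound x.length * (x.length + 2) ^ d)))) ↔
          ∃ j < J, P.Acc A x (coins (β P d c' A x) ((x.length + 2) ^ d)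
          (j * (P.bound x.length * (x.length + 2) ^ d))) := by
        constructor
        · rintro ⟨j, hj, hj'⟩
          rcases Nat.lt_succ_iff_lt_or_eq.1 hj with h | h
          · exact ⟨j, h, hj'⟩
          · rw [h] at hj'
            exact absurd hj' h3
        · rintro ⟨j, hj, hj'⟩
          exact ⟨j, by omega, hj'⟩
      simp only [h4]

/-- The program `trials` accepts if and only if one of the trials accepts. -/
theorem trials_acc (hB : Big P d c' x) (r : ℕ → Bool) : (trials P d c').Acc A x r ↔
    ∃ j < (trials P d c').bound x.length / per P d x,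
      P.Acc A x (coins (β P d c' A x) ((x.length + 2) ^ d)
        (j * (P.bound x.length * (x.length + 2) ^ d))) := by
  classical
  obtain ⟨J, hJ⟩ : ∃ J, J = (trials P d c').bound x.length / per P d x := ⟨_, rfl⟩
  obtain ⟨q, hq⟩ : ∃ q, q = (trials P d c').bound x.length % per P d x := ⟨_, rfl⟩
  have hpos : 0 < per P d x := Nat.succ_pos _
  have hdec : (trials P d c').bound x.length = J * per P d x + q := by
    rw [hJ, hq, Nat.mul_comm]
    exact (Nat.div_add_mod _ _).symm
  have hqlt : q < per P d x := by
    rw [hq]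
    exact Nat.mod_lt _ hpos
  rw [← hJ]
  have h1 := all_trials (A := A) hB r J (by omega)
  have hle : P.bound x.length * (x.length + 2) ^ d ≤ per P d x := by
    unfold per
    nlinarith
  have hle2 : J * (P.bound x.length * (x.length + 2) ^ d) ≤ J * per P d x :=
    Nat.mul_le_mul_left _ hle
  -- the incomplete trial
  obtain ⟨s, hs⟩ : ∃ s, s = q / ((x.length + 2) ^ d + 1) := ⟨_, rfl⟩
  obtain ⟨u, hu⟩ : ∃ u, u = q % ((x.length + 2) ^ d + 1) := ⟨_, rfl⟩
  have hqd : q = s * ((x.length + 2) ^ d + 1) + u := by
    rw [hs, hu, Nat.mul_comm]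
    exact (Nat.div_add_mod _ _).symm
  have hult : u < (x.length + 2) ^ d + 1 := by
    rw [hu]
    exact Nat.mod_lt _ (Nat.succ_pos _)
  have hsle : s ≤ P.bound x.length := by
    by_contra hcon
    have h2 : (P.bound x.length + 1) * ((x.length + 2) ^ d + 1) ≤
      s * ((x.length + 2) ^ d + 1) := Nat.mul_le_mul_right _ (by omega)
    unfold per at hqlt
    have h3 : (P.bound x.length + 1) * ((x.length + 2) ^ d + 1) =
      P.bound x.length * ((x.length + 2) ^ d + 1) + ((x.length + 2) ^ d + 1) := by ring
    omega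
  have hf1 : (if ∃ j < J, P.Acc A x (coins (β P d c' A x) ((x.length + 2) ^ d)
        (j * (P.bound x.length * (x.length + 2) ^ d))) then 1 else 0) ≤ 1 := by
    split_ifs <;> omega
  have hsm : s * (x.length + 2) ^ d + u ≤ q := by
    rw [hqd]
    nlinarith
  have h2 := trialSteps hB r h1 hf1 s hsle (by omega)
  have hfin : (trials P d c').run A x r ((trials P d c').bound x.length) 0 =
      if ∃ j < J, P.Acc A x (coins (β P d c' A x) ((x.length + 2) ^ d)
        (j * (P.bound x.length * (x.length + 2) ^ d))) then 1 else 0 := by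
    have htime : (trials P d c').bound x.length =
        J * per P d x + s * ((x.length + 2) ^ d + 1) + u := by omega
    by_cases hs2 : s < P.bound x.length
    · have h3 := block hB r h2 hf1 hs2 (nice_run P A x _ s) u (by omega) (by omega)
      rw [← htime] at h3
      exact h3.h0
    · have h4 : s = P.bound x.length := by omega
      have h5 : u = 0 := by
        unfold per at hqlt
        rw [h4] at hqd
        omega
      rw [h5, Nat.add_zero] at htime
      rw [← htime] at h2
      exact h2.h0
  unfold Prog.Acc at hfin ⊢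
  rw [hfin]
  constructor
  · intro h
    by_contra hcon
    exact h (if_neg hcon)
  · intro h
    rw [if_pos h]
    omega

end

end Pool.Agent.L0h58.RL
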